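import Pool.Agent.Helper33.CW2.EDefs

/-!
# CW2-Col: collecting commutators `[xᵢ, v]`

`om N hc a b` is the commutator `⁅a, b⁆` of elements of `N` as an element of
`Additive (Subgroup.center G)` (see `Helper26/CommWidth.lean`), `β (π a) (π b) = om N hc a b`.
PLAN. Claim: for every `P : List (Fin k × N)` there is `U : Fin k → N` with
`(P.map fun p => ⁅x p.1, (p.2 : G)⁆).prod * toMul (kp x β (P.map fun p => (p.1, π p.2))) =
   (List.ofFn fun i => ⁅x i, (U i : G)⁆).prod` and
`∀ i, π (U i) = ∑ over p ∈ P with p.1 = i of π p.2` (`((P.filter (·.1 = i)).map (π ·.2)).sum`).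
Induction on `P`, prepending `(i, v)`: with `c j = ⁅x j, U j⁆ ∈ N` (`N` normal; `c j` as an element of
`N` has `π (c j) = x j • π (U j) - π (U j)`),
(1) `a * (List.ofFn c).prod = (List.ofFn (Function.update c i (a * c i))).prod * toMul (∑ j < i, om a (c j))`
    for `a ∈ N` (move `a` to the position `i`, every swap `a c = c a ⁅..⁆` costs a central element of
    order 2: `a * c = ⁅a, c⁆ * (c * a)`); by induction on `k` with `List.ofFn_succ`, or on a list.
(2) `⁅x i, v⁆ * ⁅x i, U i⁆ = ⁅x i, v * U i⁆ * ⁅v, ⁅x i, U i⁆⁆^±1`
    (`⁅g, v u⁆ = ⁅g, v⁆ * (v * ⁅g, u⁆ * v⁻¹)`).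
So `U' = Function.update U i (v * U i)`, and the total cost is
`∑_{j<i} β (x i • π v - π v) (x j • π (U j) - π (U j)) + β (π v) (x i • π (U i) - π (U i))`, which is
`∑_{q ∈ P} kap x β (i, π v) (q.1, π q.2)` by the formula for `π (U j)`. Signs are irrelevant:
`a + a = 0` for all values `a` of `β` (`he`). The final statement: the product of `k` commutators.
-/

open scoped commutatorElement

namespace Pool.Agent.Helper33.CW2

open Pool.Agent.Helper26.CW

attribute [local instance] centerCommGroup

universe u

section aux

variable {G : Type u} [Group G]

/-- the element of the group -/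
private def val (z : Additive (Subgroup.center G)) : G :=
  ((Additive.toMul z : Subgroup.center G) : G)

private lemma val_def (z : Additive (Subgroup.center G)) :
    ((Additive.toMul z : Subgroup.center G) : G) = val z := rfl

private lemma val_zero : val (0 : Additive (Subgroup.center G)) = 1 := rfl

private lemma val_add (x y : Additive (Subgroup.center G)) : val (x + y) = val x * val y := rfl

private lemma val_comm (z : Additive (Subgroup.center G)) (g : G) : g * val z = val z * g :=
  comm_of_center (Additive.toMul z : Subgroup.center G).2 g

private lemma move (N : Subgroup G) (hc : ∀ r ∈ N, ∀ s ∈ N, ⁅r, s⁆ ∈ Subgroup.center G) (a : N) :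
    ∀ (k : ℕ) (c : Fin k → N) (i : Fin k),
      (a : G) * (List.ofFn fun j => (c j : G)).prod =
        (List.ofFn fun j => ((Function.update c i (a * c i) j : N) : G)).prod *
          val (∑ j, if j < i then om N hc a (c j) else 0) := by
  intro k
  induction k with
  | zero => intro c i; exact i.elim0
  | succ k ih =>
    intro c i
    rw [List.ofFn_succ, List.ofFn_succ, List.prod_cons, List.prod_cons, Fin.sum_univ_succ]
    refine Fin.cases ?_ (fun i => ?_) i
    · have h1 : ∀ j : Fin k, Function.update c 0 (a * c 0) j.succ = c j.succ := fun j =>
        Function.update_of_ne (Fin.succ_ne_zero j) _ _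
      have h2 : ∀ j : Fin k, ¬ (j.succ < (0 : Fin (k + 1))) := fun j => Fin.not_lt_zero _
      have h3 : ¬ ((0 : Fin (k + 1)) < 0) := lt_irrefl _
      simp only [Function.update_self, h1, h2, h3, if_false, Finset.sum_const_zero, add_zero,
        val_zero, mul_one, Subgroup.coe_mul, mul_assoc]
    · have h1 : ∀ j : Fin k, Function.update c i.succ (a * c i.succ) j.succ =
          Function.update (fun j => c j.succ) i (a * c i.succ) j := by
        intro j
        by_cases h : j = i
        · rw [h, Function.update_self, Function.update_self]
        · rw [Function.update_of_ne h,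
            Function.update_of_ne (fun hh => h (Fin.succ_injective _ hh))]
      have h2 : Function.update c i.succ (a * c i.succ) 0 = c 0 :=
        Function.update_of_ne (Fin.succ_ne_zero i).symm _ _
      have h3 : ((0 : Fin (k + 1)) < i.succ) := Fin.succ_pos i
      simp only [h1, h2, h3, if_true, Fin.succ_lt_succ_iff]
      have h4 := ih (fun j => c j.succ) i
      have h5 : (a : G) * (c 0 : G) = val (om N hc a (c 0)) * ((c 0 : G) * (a : G)) :=
        mul_eq_om N hc a (c 0)
      rw [← mul_assoc, h5, mul_assoc, mul_assoc, h4, val_add, ← mul_assoc (c 0 : G),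
        ← mul_assoc (val (om N hc a (c 0))), ← val_comm, mul_assoc]

end aux

theorem collect {G V : Type u} [Group G] [AddCommGroup V] [DistribMulAction G V] {k : ℕ}
    (x : Fin k → G) (N : Subgroup G) [hN : N.Normal]
    (hc : ∀ r ∈ N, ∀ s ∈ N, ⁅r, s⁆ ∈ Subgroup.center G)
    (he : ∀ r ∈ N, ∀ s ∈ N, ⁅r, s⁆ ^ 2 = 1) (π : N → V)
    (β : V →+ V →+ Additive (Subgroup.center G)) (hπ : ∀ a b, π (a * b) = π a + π b)
    (hV : ∀ v : V, v + v = 0) (hcj : ∀ (g : G) a, π (cj N g a) = g • π a)
    (hβ : ∀ a b, β (π a) (π b) = om N hc a b) (P : List (Fin k × N)) :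
    IsProdComm k ((P.map fun p => ⁅x p.1, (p.2 : G)⁆).prod *
      ((Additive.toMul (kp x β (P.map fun p => (p.1, π p.2))) : Subgroup.center G) : G)) := by
  classical
  -- elementary facts on `π`
  have p1 : π 1 = 0 := by
    have h := hπ 1 1
    rw [mul_one] at h
    exact left_eq_add.mp h
  have pinv : ∀ a : N, π a⁻¹ = - π a := by
    intro a
    have h := hπ a⁻¹ a
    rw [inv_mul_cancel, p1] at h
    exact eq_neg_of_add_eq_zero_left h.symm
  have hcm : ∀ (g : G) (u : N), ⁅g, (u : G)⁆ ∈ N := by
    intro g u
    rw [commutatorElement_def]
    exact N.mul_mem (hN.conj_mem _ u.2 g) (N.inv_mem u.2)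
  have pcm : ∀ (g : G) (u : N), π ⟨⁅g, (u : G)⁆, hcm g u⟩ = g • π u - π u := by
    intro g u
    have h : (⟨⁅g, (u : G)⁆, hcm g u⟩ : N) = cj N g u * u⁻¹ := by
      apply Subtype.ext
      simp only [commutatorElement_def, cj, Subgroup.coe_mul, Subgroup.coe_inv]
    rw [h, hπ, hcj, pinv, sub_eq_add_neg]
  have tw : ∀ a b : N, om N hc a b + om N hc a b = 0 := by
    intro a b
    apply om_ext
    have h := he a a.2 b b.2
    rw [sq] at h
    exact h
  have main : ∀ P : List (Fin k × N), ∃ U : Fin k → N,
      (P.map fun p => ⁅x p.1, (p.2 : G)⁆).prod * val (kp x β (P.map fun p => (p.1, π p.2))) =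
        (List.ofFn fun i => ⁅x i, (U i : G)⁆).prod ∧
      ∀ h : Fin k → V →+ Additive (Subgroup.center G),
        (P.map fun q => h q.1 (π q.2)).sum = ∑ j, h j (π (U j)) := by
    intro P
    induction P with
    | nil =>
      refine ⟨fun _ => 1, ?_, ?_⟩
      · have h : (List.ofFn fun i => ⁅x i, (((1 : N)) : G)⁆).prod = 1 := by
          apply List.prod_eq_one
          intro y hy
          rw [List.mem_ofFn] at hy
          obtain ⟨i, rfl⟩ := hy
          rw [Subgroup.coe_one, commutatorElement_one_right]
        rw [h]
        simp only [List.map_nil, List.prod_nil, kp, val_zero, mul_one]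
      · intro h
        simp only [List.map_nil, List.sum_nil, p1, map_zero, Finset.sum_const_zero]
    | cons q P ih =>
      obtain ⟨U, h1, h2⟩ := ih
      obtain ⟨i, v⟩ := q
      set c : Fin k → N := fun j => ⟨⁅x j, (U j : G)⁆, hcm _ _⟩ with hcdef
      set a : N := ⟨⁅x i, (v : G)⁆, hcm _ _⟩ with ha
      refine ⟨Function.update U i (v * U i), ?_, ?_⟩
      · -- the value
        set T : Additive (Subgroup.center G) := ∑ j, if j < i then om N hc a (c j) else 0 with hT
        set S : Additive (Subgroup.center G) :=
          ((P.map fun p => (p.1, π p.2)).map (kap x β (i, π v))).sum with hS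
        have hmv := move N hc a k c i
        -- the sum
        set hh : Fin k → V →+ Additive (Subgroup.center G) := fun j =>
          if j < i then (β (x i • π v - π v)).comp
            (DistribSMul.toAddMonoidHom V (x j) - AddMonoidHom.id V)
          else if j = i then (β (π v)).comp
            (DistribSMul.toAddMonoidHom V (x j) - AddMonoidHom.id V) else 0 with hhh
        have e1 : ∀ (j : Fin k) (w : V), kap x β (i, π v) (j, w) = hh j w := by
          intro j w
          rw [hhh]
          simp only [kap]
          split_ifs <;> rfl
        have e2 : S = ∑ j, hh j (π (U j)) := by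
          rw [← h2 hh, hS, List.map_map]
          congr 1
          apply List.map_congr_left
          intro p _
          exact e1 p.1 (π p.2)
        have e3 : ∀ j, hh j (π (U j)) = (if j < i then om N hc a (c j) else 0) +
            (if j = i then om N hc v (c i) else 0) := by
          intro j
          rw [← e1]
          simp only [kap]
          by_cases hj : j < i
          · have hne : j ≠ i := hj.ne
            rw [if_pos hj, if_pos hj, if_neg hne, add_zero, ← hβ, pcm, pcm]
          · by_cases hj2 : j = i
            · subst hj2
              rw [if_neg hj, if_pos rfl, if_neg hj, if_pos rfl, zero_add, ← hβ, pcm]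
            · rw [if_neg hj, if_neg hj2, if_neg hj, if_neg hj2, add_zero]
        have e4 : S = T + om N hc v (c i) := by
          rw [e2, Finset.sum_congr rfl (fun j _ => e3 j), Finset.sum_add_distrib,
            Finset.sum_ite_eq' Finset.univ i, if_pos (Finset.mem_univ i)]
        have e5 : S + S = 0 := by
          have t1 : ∀ s : Finset (Fin k), (∑ j ∈ s, if j < i then om N hc a (c j) else 0) +
              (∑ j ∈ s, if j < i then om N hc a (c j) else 0) = 0 := by
            intro s
            rw [← Finset.sum_add_distrib]
            apply Finset.sum_eq_zero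
            intro j _
            split_ifs
            · exact tw _ _
            · exact add_zero _
          have t2 := t1 Finset.univ
          have t3 := tw v (c i)
          rw [e4, add_add_add_comm]
          rw [hT, t2, t3, add_zero]
        -- the position `i`
        have f1 : ((a * c i : N) : G) = ⁅x i, ((v * U i : N) : G)⁆ * val (om N hc v (c i)) := by
          have g1 : val (om N hc v (c i)) = ⁅(v : G), ⁅x i, (U i : G)⁆⁆ := rfl
          have g2 : val (om N hc v (c i)) * val (om N hc v (c i)) = 1 := by
            rw [← val_add, tw, val_zero]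
          have g3 : ⁅x i, ((v * U i : N) : G)⁆ = (a : G) * (val (om N hc v (c i)) * (c i : G)) := by
            rw [g1]
            simp only [ha, hcdef, Subgroup.coe_mul, commutatorElement_def]
            group
          rw [g3, ← val_comm, ← mul_assoc, mul_assoc, g2, mul_one, Subgroup.coe_mul]
        have f2 : (List.ofFn fun j => ((Function.update c i (a * c i) j : N) : G)).prod =
            (List.ofFn fun j => ⁅x j, ((Function.update U i (v * U i) j : N) : G)⁆).prod *
              val (om N hc v (c i)) := by
          have key : ∀ (k : ℕ) (f g : Fin k → G) (z : Additive (Subgroup.center G)) (i : Fin k),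
              (∀ j, j ≠ i → f j = g j) → f i = g i * val z →
              (List.ofFn f).prod = (List.ofFn g).prod * val z := by
            intro k
            induction k with
            | zero => intro f g z i; exact i.elim0
            | succ k ih =>
              intro f g z i hf1 hf2
              rw [List.ofFn_succ, List.ofFn_succ, List.prod_cons, List.prod_cons]
              revert hf1 hf2
              refine Fin.cases ?_ (fun i => ?_) i
              · intro hf1 hf2
                have : ∀ j : Fin k, f j.succ = g j.succ := fun j => hf1 _ (Fin.succ_ne_zero j)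
                simp only [this]
                rw [hf2, mul_assoc, mul_assoc, val_comm]
              · intro hf1 hf2
                have h0 : f 0 = g 0 := hf1 _ (Fin.succ_ne_zero i).symm
                rw [ih (fun j => f j.succ) (fun j => g j.succ) z i
                  (fun j hj => hf1 _ (fun hh => hj (Fin.succ_injective _ hh))) hf2, h0, mul_assoc]
          refine key k _ _ _ i ?_ ?_
          · intro j hj
            rw [Function.update_of_ne hj, Function.update_of_ne hj]
          · simp only [Function.update_self]
            exact f1
        have f3 : (List.ofFn fun j => (c j : G)).prod =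
            (List.ofFn fun i => ⁅x i, (U i : G)⁆).prod := rfl
        rw [f2, f3, ← h1] at hmv
        simp only [List.map_cons, List.prod_cons, kp]
        rw [val_add, ← val_comm, ← mul_assoc, mul_assoc ⁅x i, (v : G)⁆]
        rw [← hS]
        have f4 : (a : G) = ⁅x i, (v : G)⁆ := rfl
        rw [← f4, hmv, mul_assoc, mul_assoc]
        have f5 : val (om N hc v (c i)) * (val T * val S) = 1 := by
          rw [← val_add, ← val_add]
          have : om N hc v (c i) + (T + S) = S + S := by
            rw [e4]; abel
          rw [this, e5, val_zero]
        rw [f5, mul_one]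
      · intro h
        rw [List.map_cons, List.sum_cons, h2 h]
        have e : ∀ j, h j (π (Function.update U i (v * U i) j)) =
            (if j = i then h i (π v) else 0) + h j (π (U j)) := by
          intro j
          by_cases hj : j = i
          · subst hj
            rw [Function.update_self, hπ, map_add, if_pos rfl]
          · rw [Function.update_of_ne hj, if_neg hj, zero_add]
        rw [Finset.sum_congr rfl (fun j _ => e j), Finset.sum_add_distrib,
          Finset.sum_ite_eq' Finset.univ i, if_pos (Finset.mem_univ i)]
  obtain ⟨U, h1, -⟩ := main P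
  rw [val_def, h1]
  refine ⟨List.ofFn fun i => (x i, (U i : G)), by rw [List.length_ofFn], ?_⟩
  rw [List.map_ofFn]
  rfl

end Pool.Agent.Helper33.CW2
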