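import Pool.Agent.Helper33.CW2.EDefs

/-!
# CW2-Tel: the commutator of a word

PLAN. Induction on the word `W`, for all `u`. `⁅y * w', u⁆ = ⁅y, w' u w'⁻¹⁆ * ⁅w', u⁆`. For `y = x i`:
the letter `(i, cj N (ev x W) u)`, `π` of it is `ev x W • π u`. For `y = (x i)⁻¹`, `u' = w' u w'⁻¹`,
`v = x i⁻¹ u' x i` (`= cj N ((x i)⁻¹ * ev x W) u`): `⁅(x i)⁻¹, u'⁆ = ⁅x i, v⁆⁻¹ = v (x i) v⁻¹ (x i)⁻¹` and
`⁅x i, v⁻¹⁆ = (x i v⁻¹ (x i)⁻¹) v`, so `⁅(x i)⁻¹, u'⁆ = ⁅x i, v⁻¹⁆ * ⁅v, u'⁻¹⁆^±1` (`u' = x i v (x i)⁻¹`),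
cost `β (π v) (π u')`, `π v = ((x i)⁻¹ * ev x W) • π u`, `π u' = ev x W • π u` (this is the entry of
`negs`); the letter is `(i, v⁻¹)`, `π (v⁻¹) = - π v = π v` (`hV`). Everything central of order 2 (`he`)
is collected on the right.
-/

open scoped commutatorElement

namespace Pool.Agent.Helper33.CW2

open Pool.Agent.Helper26.CW

attribute [local instance] centerCommGroup

universe u

private lemma centr {G : Type u} [Group G] (z w : Additive (Subgroup.center G)) (a b : G) :
    ((Additive.toMul z : Subgroup.center G) : G) *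
      (a * (b * ((Additive.toMul w : Subgroup.center G) : G))) =
      a * (b * ((Additive.toMul (z + w) : Subgroup.center G) : G)) := by
  have h : ∀ g : G, g * ((Additive.toMul z : Subgroup.center G) : G) =
      ((Additive.toMul z : Subgroup.center G) : G) * g := fun g =>
    comm_of_center (Additive.toMul z : Subgroup.center G).2 g
  rw [Pool.Agent.Helper26.CW.toMul_add, ← mul_assoc, ← h, mul_assoc, ← mul_assoc _ b, ← h, mul_assoc]

theorem tele {G V : Type u} [Group G] [AddCommGroup V] [DistribMulAction G V] {k : ℕ}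
    (x : Fin k → G) (N : Subgroup G) [hN : N.Normal]
    (hc : ∀ r ∈ N, ∀ s ∈ N, ⁅r, s⁆ ∈ Subgroup.center G)
    (he : ∀ r ∈ N, ∀ s ∈ N, ⁅r, s⁆ ^ 2 = 1) (π : N → V)
    (β : V →+ V →+ Additive (Subgroup.center G)) (hπ : ∀ a b, π (a * b) = π a + π b)
    (hV : ∀ v : V, v + v = 0) (hcj : ∀ (g : G) a, π (cj N g a) = g • π a)
    (hβ : ∀ a b, β (π a) (π b) = om N hc a b) (W : List (Fin k × Bool)) (u : N) :
    ∃ P : List (Fin k × N),
      (P.map fun p => (p.1, π p.2)) = ((lets x W).map fun p => (p.1, p.2 • π u)) ∧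
      ⁅ev x W, (u : G)⁆ = (P.map fun p => ⁅x p.1, (p.2 : G)⁆).prod *
        ((Additive.toMul (((negs x W).map fun p => β (p.1 • π u) (p.2 • π u)).sum) :
          Subgroup.center G) : G) := by
  have hone : π 1 = 0 := by
    have h := hπ 1 1
    rw [mul_one] at h
    exact (left_eq_add.1 h)
  have hinv : ∀ r : N, π r⁻¹ = π r := by
    intro r
    have h := hπ r⁻¹ r
    rw [inv_mul_cancel, hone] at h
    have h2 := hV (π r)
    exact (eq_neg_of_add_eq_zero_left h.symm).trans (eq_neg_of_add_eq_zero_left h2).symm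
  induction W with
  | nil =>
    refine ⟨[], by simp [lets], ?_⟩
    simp [ev, negs]
  | cons l W ih =>
    obtain ⟨P, hP1, hP2⟩ := ih
    obtain ⟨i, b⟩ := l
    cases b with
    | true =>
      refine ⟨(i, cj N (ev x W) u) :: P, ?_, ?_⟩
      · simp only [List.map_cons, lets, hP1, hcj]
      · have h1 : ⁅ev x ((i, true) :: W), (u : G)⁆ =
            ⁅x i, ((cj N (ev x W) u : N) : G)⁆ * ⁅ev x W, (u : G)⁆ := by
          simp only [ev, commutatorElement_def, cj]; group
        rw [h1, hP2]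
        simp only [List.map_cons, List.prod_cons, negs, mul_assoc]
    | false =>
      set u' : N := cj N (ev x W) u with hu'
      set v : N := cj N ((x i)⁻¹ * ev x W) u with hv
      refine ⟨(i, v⁻¹) :: P, ?_, ?_⟩
      · simp only [List.map_cons, lets, hP1, hinv, hv, hcj]
      · have h1 : ⁅ev x ((i, false) :: W), (u : G)⁆ =
            ⁅(v : G), ((u'⁻¹ : N) : G)⁆ * (⁅x i, ((v⁻¹ : N) : G)⁆ * ⁅ev x W, (u : G)⁆) := by
          simp only [ev, commutatorElement_def, hv, hu', cj, Subgroup.coe_inv]; group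
        have h2 : β (((x i)⁻¹ * ev x W) • π u) (ev x W • π u) = om N hc v u'⁻¹ := by
          rw [← hβ, hinv, hv, hu', hcj, hcj]
        have h3 : ⁅(v : G), ((u'⁻¹ : N) : G)⁆ = ((Additive.toMul
            (β (((x i)⁻¹ * ev x W) • π u) (ev x W • π u)) : Subgroup.center G) : G) := by
          rw [h2, om_def]
        rw [h1, hP2, h3]
        simp only [List.map_cons, List.prod_cons, negs, List.sum_cons]
        rw [centr, mul_assoc]

end Pool.Agent.Helper33.CW2
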