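import Pool.Agent.Helper33.CW2.Defs

/-!
# CW2-Grow: the degree beats the nilpotency class

PLAN. `∏_{i<c} ((k (2 (R + r ((2l+1) 16κ)) + 1)^k)^(i+1) 2^a)`; with `L = l + 1`,
`2 (R + r ((2l+1) 16κ)) + 1 ≤ C₀ L`, `C₀ = 2R + 64 r κ + 1`, so every factor is at most
`(k C₀^k)^(i+1) 2^a L^(k (i+1))` and the product is at most `C L^(k (c(c+1)/2))` with
`C = ∏_{i<c} (k C₀^k)^(i+1) 2^a` (`Finset.prod_le_prod`, `Finset.prod_pow_eq_pow_sum`,
`Finset.sum_range_id_mul_two` / `Finset.range_id_eq_sum_of_odd`…: `∑_{i<c} (i+1) = c (c+1) / 2`, by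
induction on `c`, as `Nat.triangle_succ`). Take `l` with `C ≤ l + 1`: then the product is at most
`L ^ (k (c(c+1)/2) + 1)`.
-/

namespace Pool.Agent.Helper33.CW2

private theorem sum_tri (c : ℕ) : ∑ i ∈ Finset.range c, (i + 1) = c * (c + 1) / 2 := by
  have h : (∑ i ∈ Finset.range c, (i + 1)) * 2 = c * (c + 1) := by
    induction c with
    | zero => simp
    | succ n ih =>
      rw [Finset.sum_range_succ, add_mul, ih]
      ring
  omega

theorem grow (k c a R κ : ℕ) :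
    ∃ l : ℕ, ∏ i ∈ Finset.range c,
        ((k * (2 * (R + (k * (c * (c + 1) / 2) + 1) * ((2 * l + 1) * (16 * κ))) + 1) ^ k) ^
          (i + 1) * 2 ^ a) ≤
      (l + 1) ^ (k * (c * (c + 1) / 2) + 1) := by
  set e : ℕ := k * (c * (c + 1) / 2) with he
  set C₀ : ℕ := 2 * R + 64 * (e + 1) * κ + 1 with hC₀
  set C : ℕ := ∏ i ∈ Finset.range c, ((k * C₀ ^ k) ^ (i + 1) * 2 ^ a) with hC
  refine ⟨C, ?_⟩
  have h1 : 2 * (R + (e + 1) * ((2 * C + 1) * (16 * κ))) + 1 ≤ C₀ * (C + 1) := by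
    rw [hC₀]
    have h2 : (e + 1) * κ * C ≤ (e + 1) * κ * C := le_rfl
    nlinarith [Nat.zero_le (R * C), Nat.zero_le ((e + 1) * κ), Nat.zero_le C]
  calc ∏ i ∈ Finset.range c,
        ((k * (2 * (R + (e + 1) * ((2 * C + 1) * (16 * κ))) + 1) ^ k) ^ (i + 1) * 2 ^ a)
      ≤ ∏ i ∈ Finset.range c, (((k * C₀ ^ k) ^ (i + 1) * 2 ^ a) * (C + 1) ^ (k * (i + 1))) := by
        refine Finset.prod_le_prod' fun i _ => ?_
        have h3 : (k * (2 * (R + (e + 1) * ((2 * C + 1) * (16 * κ))) + 1) ^ k) ^ (i + 1) ≤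
            (k * (C₀ * (C + 1)) ^ k) ^ (i + 1) :=
          Nat.pow_le_pow_left (Nat.mul_le_mul_left k (Nat.pow_le_pow_left h1 k)) (i + 1)
        have h4 : (k * (C₀ * (C + 1)) ^ k) ^ (i + 1) =
            (k * C₀ ^ k) ^ (i + 1) * (C + 1) ^ (k * (i + 1)) := by
          rw [mul_pow C₀, ← mul_assoc, mul_pow, pow_mul]
        calc _ ≤ (k * (C₀ * (C + 1)) ^ k) ^ (i + 1) * 2 ^ a := Nat.mul_le_mul_right _ h3
          _ = _ := by
            rw [h4]
            ring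
    _ = C * (C + 1) ^ e := by
        rw [Finset.prod_mul_distrib, Finset.prod_pow_eq_pow_sum, ← Finset.mul_sum, sum_tri]
    _ ≤ (C + 1) * (C + 1) ^ e := Nat.mul_le_mul_right _ (Nat.le_succ C)
    _ = (C + 1) ^ (e + 1) := by rw [pow_succ]; ring

end Pool.Agent.Helper33.CW2
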