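import Pool.Agent.Helper33.CW2.Ops

/-!
# CW2-NilP: products of many `z - 1`, for few commuting `z` of order `2^a`

`ops [m₁, …, m_D] v = (m₁ - 1) ⋯ (m_D - 1) v`.
PLAN. `ops_two_pow`: `ops (List.replicate (2 ^ a) z) v = z ^ (2 ^ a) • v - v` if `v + v = 0` for all `v`:
induction on `a`: `replicate (2^(a+1)) = replicate (2^a) ++ replicate (2^a)` and `ops_append`:
`(y - 1)(y - 1) v = y² v - y v - y v + v = y² v - v` with `y = z ^ (2^a)` (`y v + y v = 0`, `v + v = 0`).
`pigeon`: let `U' ≤ U` be additive subgroups of `V`, stable under all `z i` (and `U'` is also stable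
under taking `z i • · - ·`), with `z i • (z j • u) - z j • (z i • u) ∈ U'` for `u ∈ U`, and
`(z i) ^ (2 ^ a) • u - u ∈ U'` for `u ∈ U`. For a list `is : List (Fin M)` of length `≥ M * 2 ^ a` with
`0 < M` (or of length `> M * (2 ^ a - 1)`) some `i` has `is.count i ≥ 2 ^ a`
(`∑ i, is.count i = is.length`: `List.sum_count`… or `Multiset.toFinset_sum_count_eq`,
`Finset.exists_le_of_sum_le`). Then `is` is a permutation of `List.replicate (2 ^ a) i ++ rest`
(e.g. `rest = is.filter (· ≠ i)` plus further copies of `i`; `List.Perm` from equality of counts,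
`List.perm_iff_count`), and `ops (is.map z) u - ops (is'.map z) u ∈ U'` for a permutation `is'` of
`is` (induction on `List.Perm`: `swap` uses the commutation mod `U'`, `cons` the stability of `U'`).
Finally `ops (replicate (2 ^ a) (z i)) u₁ ∈ U'` for `u₁ = ops (rest.map z) u ∈ U` by `ops_two_pow`.
-/

namespace Pool.Agent.Helper33.CW2

variable {T V : Type*} [Group T] [AddCommGroup V] [DistribMulAction T V]

theorem ops_two_pow (h2 : ∀ v : V, v + v = 0) (z : T) (a : ℕ) (v : V) :
    ops (List.replicate (2 ^ a) z) v = z ^ (2 ^ a) • v - v := by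
  induction a generalizing v with
  | zero =>
    rw [pow_zero, pow_one, List.replicate_one, ops_cons, ops_nil]
  | succ a ih =>
    have hl : List.replicate (2 ^ (a + 1)) z =
        List.replicate (2 ^ a) z ++ List.replicate (2 ^ a) z := by
      rw [← List.replicate_add, pow_succ, mul_two]
    have hp : z ^ (2 ^ (a + 1)) = z ^ (2 ^ a) * z ^ (2 ^ a) := by
      rw [← pow_add, pow_succ, mul_two]
    rw [hl, ops_append, ih, ih, hp, smul_sub, mul_smul]
    have h1 := h2 (z ^ (2 ^ a) • v)
    have h3 := h2 v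
    have h4 : z ^ (2 ^ a) • v = - (z ^ (2 ^ a) • v) := eq_neg_of_add_eq_zero_left h1
    have h5 : v = - v := eq_neg_of_add_eq_zero_left h3
    have h6 : z ^ (2 ^ a) • z ^ (2 ^ a) • v - z ^ (2 ^ a) • v - (z ^ (2 ^ a) • v - v) =
        z ^ (2 ^ a) • z ^ (2 ^ a) • v - (z ^ (2 ^ a) • v + z ^ (2 ^ a) • v) + v := by
      abel
    rw [h6, h1, sub_zero, sub_eq_add_neg, ← h5]

private lemma ops_mem_aux {M : ℕ} (z : Fin M → T) (U : AddSubgroup V)
    (hU : ∀ i, ∀ u ∈ U, z i • u ∈ U) (is : List (Fin M)) (u : V) (hu : u ∈ U) :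
    ops (is.map z) u ∈ U := by
  induction is with
  | nil => exact hu
  | cons i is ih =>
    rw [List.map_cons, ops_cons]
    exact U.sub_mem (hU i _ ih) ih

private lemma ops_perm_aux {M : ℕ} (z : Fin M → T) (U U' : AddSubgroup V)
    (hU : ∀ i, ∀ u ∈ U, z i • u ∈ U) (hU' : ∀ i, ∀ u ∈ U', z i • u ∈ U')
    (hcomm : ∀ i j, ∀ u ∈ U, z i • (z j • u) - z j • (z i • u) ∈ U')
    {is js : List (Fin M)} (h : is.Perm js) (u : V) (hu : u ∈ U) :
    ops (is.map z) u - ops (js.map z) u ∈ U' := by
  induction h with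
  | nil => rw [sub_self]; exact U'.zero_mem
  | @cons x l₁ l₂ _ ih =>
    rw [List.map_cons, List.map_cons, ops_cons, ops_cons]
    have h1 : z x • ops (l₁.map z) u - ops (l₁.map z) u -
        (z x • ops (l₂.map z) u - ops (l₂.map z) u) =
        z x • (ops (l₁.map z) u - ops (l₂.map z) u) - (ops (l₁.map z) u - ops (l₂.map z) u) := by
      rw [smul_sub]; abel
    rw [h1]
    exact U'.sub_mem (hU' x _ ih) ih
  | swap x y l =>
    rw [List.map_cons, List.map_cons, List.map_cons, List.map_cons, ops_cons, ops_cons,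
      ops_cons, ops_cons]
    have hw := ops_mem_aux z U hU l u hu
    have h1 := hcomm y x _ hw
    have h2 : z y • (z x • ops (l.map z) u - ops (l.map z) u) -
        (z x • ops (l.map z) u - ops (l.map z) u) -
        (z x • (z y • ops (l.map z) u - ops (l.map z) u) -
        (z y • ops (l.map z) u - ops (l.map z) u)) =
        z y • (z x • ops (l.map z) u) - z x • (z y • ops (l.map z) u) := by
      rw [smul_sub, smul_sub]; abel
    rw [h2]
    exact h1
  | @trans l₁ l₂ l₃ _ _ ih1 ih2 =>
    have h1 : ops (l₁.map z) u - ops (l₃.map z) u =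
        (ops (l₁.map z) u - ops (l₂.map z) u) + (ops (l₂.map z) u - ops (l₃.map z) u) := by
      abel
    rw [h1]
    exact U'.add_mem ih1 ih2

theorem pigeon (h2 : ∀ v : V, v + v = 0) {M : ℕ} (hM : 0 < M) (z : Fin M → T) (a : ℕ)
    (U U' : AddSubgroup V)
    (hU : ∀ i, ∀ u ∈ U, z i • u ∈ U) (hU' : ∀ i, ∀ u ∈ U', z i • u ∈ U') (hUU : U' ≤ U)
    (hcomm : ∀ i j, ∀ u ∈ U, z i • (z j • u) - z j • (z i • u) ∈ U')
    (hpow : ∀ i, ∀ u ∈ U, z i ^ (2 ^ a) • u - u ∈ U') (is : List (Fin M))
    (his : M * 2 ^ a ≤ is.length) (u : V) (hu : u ∈ U) : ops (is.map z) u ∈ U' := by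
  classical
  obtain ⟨i, hi⟩ : ∃ i : Fin M, 2 ^ a ≤ is.count i := by
    by_contra hcon
    push Not at hcon
    have hsum : ∑ i : Fin M, is.count i = is.length := by
      have := Multiset.sum_count_eq_card (s := Finset.univ) (m := (is : Multiset (Fin M)))
        (fun b _ => Finset.mem_univ b)
      rw [Multiset.coe_card] at this
      rw [← this]
      exact Finset.sum_congr rfl fun b _ => (Multiset.coe_count b is).symm
    have hlt : ∑ i : Fin M, is.count i < ∑ _i : Fin M, 2 ^ a :=
      Finset.sum_lt_sum_of_nonempty ⟨⟨0, hM⟩, Finset.mem_univ _⟩ fun i _ => hcon i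
    rw [Finset.sum_const, Finset.card_univ, Fintype.card_fin, smul_eq_mul, hsum] at hlt
    exact absurd his (not_le.mpr hlt)
  obtain ⟨rest, hrest⟩ := (List.replicate_sublist_iff.mpr hi).exists_perm_append
  have h1 := ops_perm_aux z U U' hU hU' hcomm hrest u hu
  have hw := ops_mem_aux z U hU rest u hu
  have h3 : ops ((List.replicate (2 ^ a) i ++ rest).map z) u ∈ U' := by
    rw [List.map_append, List.map_replicate, ops_append, ops_two_pow h2]
    exact hpow i _ hw
  have h4 := U'.add_mem h1 h3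
  rw [sub_add_cancel] at h4
  exact h4

end Pool.Agent.Helper33.CW2
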