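import Pool.Agent.Helper33.CW2.NilG
import Pool.Agent.Helper33.CW2.NilP

/-!
# CW2-Nil: products of many `m - 1` vanish
-/

open scoped commutatorElement

namespace Pool.Agent.Helper33.CW2

open Pool.Agent.Helper17.CW

universe u

section aux

variable {T V : Type u} [Group T] [AddCommGroup V] [DistribMulAction T V]

private lemma ops_mem (U : AddSubgroup V) (hU : ∀ s : T, ∀ u ∈ U, s • u ∈ U) (ms : List T) :
    ∀ u ∈ U, ops ms u ∈ U := by
  induction ms with
  | nil => intro u hu; simpa using hu
  | cons m ms ih =>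
    intro u hu
    rw [ops_cons]
    exact U.sub_mem (hU m _ (ih u hu)) (ih u hu)

/-- The subgroup of the step. -/
private def Wj (U U' : AddSubgroup V) {M : ℕ} (z : Fin M → T) (j : ℕ) : AddSubgroup V :=
  U' ⊔ AddSubgroup.closure {v | ∃ is : List (Fin M), is.length = j ∧ ∃ u ∈ U,
    v = ops (is.map z) u}

private lemma Wj_ind {U U' : AddSubgroup V} {M : ℕ} {z : Fin M → T} {j : ℕ}
    (S : AddSubgroup V) (h1 : U' ≤ S)
    (h2 : ∀ is : List (Fin M), is.length = j → ∀ u ∈ U, ops (is.map z) u ∈ S) :
    Wj U U' z j ≤ S := by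
  refine sup_le h1 ?_
  rw [AddSubgroup.closure_le]
  rintro _ ⟨is, his, u, hu, rfl⟩
  exact h2 is his u hu

private lemma le_Wj {U U' : AddSubgroup V} {M : ℕ} {z : Fin M → T} {j : ℕ} :
    U' ≤ Wj U U' z j := le_sup_left

private lemma mem_Wj {U U' : AddSubgroup V} {M : ℕ} {z : Fin M → T} {j : ℕ}
    (is : List (Fin M)) (his : is.length = j) (u : V) (hu : u ∈ U) :
    ops (is.map z) u ∈ Wj U U' z j :=
  (le_sup_right : _ ≤ Wj U U' z j) (AddSubgroup.subset_closure ⟨is, his, u, hu, rfl⟩)

private lemma comm_mem {c : ℕ} {U U' : AddSubgroup V} (hU : ∀ s : T, ∀ u ∈ U, s • u ∈ U)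
    (hg : ∀ h ∈ gam (⊤ : Subgroup T) (c + 1), ∀ u ∈ U, h • u - u ∈ U')
    {x : T} (hx : x ∈ gam (⊤ : Subgroup T) c) (s : T) (v : V) (hv : v ∈ U) :
    s • (x • v) - x • (s • v) ∈ U' := by
  have h1 : ⁅s, x⁆ ∈ gam (⊤ : Subgroup T) (c + 1) := by
    rw [gam_succ, ← commutatorElement_inv]
    exact Subgroup.inv_mem _ (Subgroup.commutator_mem_commutator hx (Subgroup.mem_top s))
  have h2 : s • (x • v) = ⁅s, x⁆ • (x • (s • v)) := by
    rw [smul_smul, smul_smul, smul_smul, commutatorElement_def]
    congr 1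
    group
  rw [h2]
  exact hg _ h1 _ (hU _ _ (hU _ _ hv))

private lemma ops_comm {c : ℕ} {U U' : AddSubgroup V} (hU : ∀ s : T, ∀ u ∈ U, s • u ∈ U)
    (hU' : ∀ s : T, ∀ u ∈ U', s • u ∈ U')
    (hg : ∀ h ∈ gam (⊤ : Subgroup T) (c + 1), ∀ u ∈ U, h • u - u ∈ U')
    {M : ℕ} (z : Fin M → T) (hz : ∀ i, z i ∈ gam (⊤ : Subgroup T) c) (s : T)
    (is : List (Fin M)) (u : V) (hu : u ∈ U) :
    s • ops (is.map z) u - ops (is.map z) (s • u) ∈ U' := by
  induction is with
  | nil => simp
  | cons i is ih =>
    have hw : ops (is.map z) u ∈ U := ops_mem U hU _ u hu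
    have h1 := comm_mem hU hg (hz i) s _ hw
    have h2 := hU' (z i) _ ih
    have h3 : s • ops ((i :: is).map z) u - ops ((i :: is).map z) (s • u) =
        (s • (z i • ops (is.map z) u) - z i • (s • ops (is.map z) u)) +
        z i • (s • ops (is.map z) u - ops (is.map z) (s • u)) -
        (s • ops (is.map z) u - ops (is.map z) (s • u)) := by
      rw [List.map_cons, ops_cons, ops_cons, smul_sub, smul_sub]
      abel
    rw [h3]
    exact U'.sub_mem (U'.add_mem h1 h2) ih

end aux

theorem nil_rel {T V : Type u} [Group T] [AddCommGroup V] [DistribMulAction T V]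
    (h2 : ∀ v : V, v + v = 0) {n : ℕ} (hn : 0 < n) (t : Fin n → T)
    (ht : Subgroup.closure (Set.range t) = ⊤) (a c : ℕ) :
    ∀ U U' : AddSubgroup V, U' ≤ U → (∀ s : T, ∀ u ∈ U, s • u ∈ U) →
      (∀ s : T, ∀ u ∈ U', s • u ∈ U') →
      (∀ h ∈ gam (⊤ : Subgroup T) c, ∀ u ∈ U, h • u - u ∈ U') →
      (∀ h : T, ∀ u ∈ U, h ^ (2 ^ a) • u - u ∈ U') →
      ∀ ms : List T, ∏ i ∈ Finset.range c, (n ^ (i + 1) * 2 ^ a) ≤ ms.length → ∀ u ∈ U,
        ops ms u ∈ U' := by
  induction c with
  | zero =>
    intro U U' hUU hU hU' hg hp ms hms u hu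
    rw [Finset.range_zero, Finset.prod_empty] at hms
    cases ms with
    | nil => simp at hms
    | cons m ms =>
      rw [ops_cons]
      exact hg m (by change m ∈ (⊤ : Subgroup T); exact Subgroup.mem_top m) _
        (ops_mem U hU ms u hu)
  | succ c ih =>
    intro U U' hUU hU hU' hg hp ms hms u hu
    obtain ⟨z, hz, hgen⟩ := gam_gen t ht c
    -- stability of `Wj`
    have hWU : ∀ j, Wj U U' z j ≤ U := fun j =>
      Wj_ind U hUU fun is _ u hu => ops_mem U hU _ u hu
    have hWs : ∀ j, ∀ s : T, ∀ v ∈ Wj U U' z j, s • v ∈ Wj U U' z j := by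
      intro j s v hv
      have h3 : Wj U U' z j ≤
          (Wj U U' z j).comap (DistribSMul.toAddMonoidHom V s) := by
        refine Wj_ind _ (fun v hv => ?_) (fun is his u hu => ?_)
        · rw [AddSubgroup.mem_comap]
          exact le_Wj (hU' s v hv)
        · rw [AddSubgroup.mem_comap]
          change s • ops (is.map z) u ∈ _
          have h4 := ops_comm hU hU' hg z hz s is u hu
          have h5 : s • ops (is.map z) u = (s • ops (is.map z) u - ops (is.map z) (s • u)) +
            ops (is.map z) (s • u) := by abel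
          rw [h5]
          exact (Wj U U' z j).add_mem (le_Wj h4) (mem_Wj is his _ (hU s u hu))
      exact h3 hv
    have hWz : ∀ j i, ∀ v ∈ Wj U U' z j, z i • v - v ∈ Wj U U' z (j + 1) := by
      intro j i v hv
      have h3 : Wj U U' z j ≤ (Wj U U' z (j + 1)).comap
          (DistribSMul.toAddMonoidHom V (z i) - AddMonoidHom.id V) := by
        refine Wj_ind _ (fun v hv => ?_) (fun is his u hu => ?_)
        · rw [AddSubgroup.mem_comap]
          change z i • v - v ∈ _
          exact le_Wj (U'.sub_mem (hU' _ v hv) hv)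
        · rw [AddSubgroup.mem_comap]
          change z i • ops (is.map z) u - ops (is.map z) u ∈ _
          have h4 := mem_Wj (U := U) (U' := U') (z := z) (i :: is)
            (show (i :: is).length = j + 1 by rw [List.length_cons, his]) u hu
          rwa [List.map_cons, ops_cons] at h4
      exact h3 hv
    have hWle : ∀ j, Wj U U' z (j + 1) ≤ Wj U U' z j := by
      intro j
      refine Wj_ind _ le_Wj (fun is his u hu => ?_)
      cases is with
      | nil => simp at his
      | cons i is =>
        rw [List.map_cons, ops_cons]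
        have h4 := mem_Wj (U := U) (U' := U') (z := z) (j := j) is
          (by rw [List.length_cons] at his; omega) u hu
        exact (Wj U U' z j).sub_mem (hWs j _ _ h4) h4
    have hWg : ∀ j, ∀ h ∈ gam (⊤ : Subgroup T) c, ∀ v ∈ Wj U U' z j,
        h • v - v ∈ Wj U U' z (j + 1) := by
      intro j
      let K : Subgroup T :=
        { carrier := {h | ∀ v ∈ Wj U U' z j, h • v - v ∈ Wj U U' z (j + 1)}
          one_mem' := fun v _ => by
            rw [one_smul, sub_self]; exact AddSubgroup.zero_mem _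
          mul_mem' := fun {x y} hx hy v hv => by
            have h3 : (x * y) • v - v = x • (y • v - v) + (x • v - v) := by
              rw [mul_smul, smul_sub]; abel
            rw [h3]
            exact AddSubgroup.add_mem _ (hWs _ _ _ (hy v hv)) (hx v hv)
          inv_mem' := fun {x} hx v hv => by
            have h3 : x⁻¹ • v - v = -(x⁻¹ • (x • v - v)) := by
              rw [smul_sub, inv_smul_smul]; abel
            rw [h3]
            exact AddSubgroup.neg_mem _ (hWs _ _ _ (hx v hv)) }
      have h3 : gam (⊤ : Subgroup T) c ≤ K := by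
        refine hgen.trans (sup_le ?_ ?_)
        · rw [Subgroup.closure_le]
          rintro _ ⟨i, rfl⟩
          exact fun v hv => hWz j i v hv
        · intro h hh v hv
          exact le_Wj (hg h hh v (hWU j hv))
      exact fun h hh v hv => h3 hh v hv
    have hWp : ∀ j, ∀ h : T, ∀ v ∈ Wj U U' z j, h ^ (2 ^ a) • v - v ∈ Wj U U' z (j + 1) :=
      fun j h v hv => le_Wj (hp h v (hWU j hv))
    have hstep : ∀ j, ∀ ms : List T, ∏ i ∈ Finset.range c, (n ^ (i + 1) * 2 ^ a) ≤ ms.length →
        ∀ v ∈ Wj U U' z j, ops ms v ∈ Wj U U' z (j + 1) := fun j =>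
      ih (Wj U U' z j) (Wj U U' z (j + 1)) (hWle j) (hWs j) (hWs (j + 1)) (hWg j) (hWp j)
    have hW0 : ∀ v ∈ U, v ∈ Wj U U' z 0 := fun v hv =>
      mem_Wj (U := U) (U' := U') (z := z) [] rfl v hv
    set B := ∏ i ∈ Finset.range c, (n ^ (i + 1) * 2 ^ a) with hB
    have hall : ∀ j, ∀ ms : List T, j * B ≤ ms.length → ∀ v ∈ U, ops ms v ∈ Wj U U' z j := by
      intro j
      induction j with
      | zero => intro ms _ v hv; exact ops_mem _ (hWs 0) ms v (hW0 v hv)
      | succ j ihj =>
        intro ms hms v hv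
        have h4 : ops ms v = ops (ms.take B) (ops (ms.drop B) v) := by
          rw [← ops_append, List.take_append_drop]
        rw [h4]
        have h5 : (j + 1) * B = j * B + B := by ring
        refine hstep j _ ?_ _ (ihj _ ?_ v hv)
        · rw [List.length_take]; omega
        · rw [List.length_drop]; omega
    have hfin : Wj U U' z (n ^ (c + 1) * 2 ^ a) ≤ U' := by
      refine Wj_ind _ le_rfl (fun is his u hu => ?_)
      exact pigeon h2 (pow_pos hn (c + 1)) z a U U' (fun i u hu => hU _ u hu)
        (fun i u hu => hU' _ u hu) hUU (fun i j u hu => comm_mem hU hg (hz j) (z i) u hu)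
        (fun i u hu => hp _ u hu) is his.ge u hu
    refine hfin (hall _ ms ?_ u hu)
    rw [Finset.prod_range_succ] at hms
    rw [mul_comm]
    exact hms

private lemma gam_mono {G : Type u} [Group G] {H H' : Subgroup G} (h : H ≤ H') (c : ℕ) :
    gam H c ≤ gam H' c := by
  induction c with
  | zero => exact h
  | succ c ih => rw [gam_succ, gam_succ]; exact Subgroup.commutator_mono ih h

private lemma ops_coe {G V : Type u} [Group G] [AddCommGroup V] [DistribMulAction G V]
    (S : Subgroup G) (ms : List S) (v : V) : ops ms v = ops (ms.map (fun m : S => (m : G))) v := by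
  induction ms with
  | nil => rfl
  | cons m ms ih => rw [List.map_cons, ops_cons, ops_cons, ih]; rfl

theorem nil_kill {G V : Type u} [Group G] [AddCommGroup V] [DistribMulAction G V]
    (h2 : ∀ v : V, v + v = 0) {n : ℕ} (hn : 0 < n) (t : Fin n → G) (H : Subgroup G)
    (hH : Subgroup.closure (Set.range t) ≤ H) (a c : ℕ)
    (hc : ∀ h ∈ gam H c, ∀ v : V, h • v = v) (ha : ∀ h ∈ H, ∀ v : V, h ^ (2 ^ a) • v = v)
    (ms : List G) (hms : ∀ m ∈ ms, m ∈ Subgroup.closure (Set.range t))
    (hl : ∏ i ∈ Finset.range c, (n ^ (i + 1) * 2 ^ a) ≤ ms.length) (v : V) :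
    ops ms v = 0 := by
  let T : Subgroup G := Subgroup.closure (Set.range t)
  let t' : Fin n → T := fun i => ⟨t i, Subgroup.subset_closure ⟨i, rfl⟩⟩
  have ht' : Subgroup.closure (Set.range t') = ⊤ := by
    have h3 : Set.range t' = ((↑) : T → G) ⁻¹' (Set.range t) := by
      ext x
      constructor
      · rintro ⟨i, rfl⟩; exact ⟨i, rfl⟩
      · rintro ⟨i, hi⟩; exact ⟨i, Subtype.ext hi⟩
    rw [h3]
    exact Subgroup.closure_closure_coe_preimage
  let L : List T := ms.attach.map fun m => ⟨m.1, hms m.1 m.2⟩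
  have hL : L.length = ms.length := by
    change (ms.attach.map _).length = ms.length
    rw [List.length_map, List.length_attach]
  have h4 := nil_rel (T := T) h2 hn t' ht' a c (⊤ : AddSubgroup V) ⊥ bot_le
    (fun _ _ _ => AddSubgroup.mem_top _)
    (fun s u hu => by
      rw [AddSubgroup.mem_bot] at hu ⊢
      rw [hu, smul_zero])
    (fun h hh u _ => by
      rw [AddSubgroup.mem_bot, sub_eq_zero]
      have h5 : (h : G) ∈ (gam (⊤ : Subgroup T) c).map T.subtype := ⟨h, hh, rfl⟩
      rw [gam_map] at h5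
      have h6 : (⊤ : Subgroup T).map T.subtype ≤ H := by
        rw [← MonoidHom.range_eq_map, Subgroup.range_subtype]
        exact hH
      exact hc _ (gam_mono h6 c h5) u)
    (fun h u _ => by
      rw [AddSubgroup.mem_bot, sub_eq_zero]
      exact ha (h : G) (hH h.2) u)
    L (by rw [hL]; exact hl) v (AddSubgroup.mem_top v)
  rw [AddSubgroup.mem_bot, ops_coe] at h4
  have h5 : L.map (fun m : T => (m : G)) = ms := by
    change (ms.attach.map _).map _ = ms
    rw [List.map_map]
    exact List.attach_map_subtype_val ms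
  rw [h5] at h4
  exact h4

end Pool.Agent.Helper33.CW2
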