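import Pool.Agent.Helper33.CW2.Defs

/-!
# CW2-Round: one round, abstractly

`I j q` is the set of items of level `j` and class `q`, `B j` the subgroup generated by their values.
PLAN. Induction on `n`: for every `z ∈ B 1` there is `ω : Q → List (V × V)` such that all members of
`ω q` are items of class `q` and of a level `≤ n` (`∀ q, ∀ y ∈ ω q, ∃ j, 1 ≤ j ∧ j ≤ n ∧ y ∈ I j q`) and
`z - ∑ q, tot β E S (ω q) ∈ ⨆ j ∈ Set.Ioc n (2 * n + 1), B j`. `n = 0`: `ω = []`, `B 1`.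
Step `n → n + 1`: the remainder `e` is `e₁ + e'` with `e₁ ∈ B (n + 1)` and `e' ∈ ⨆ j ∈ Ioc (n+1) (2n+1)`
(`⨆ j ∈ Ioc n (2n+1) = B (n+1) ⊔ ⨆ j ∈ Ioc (n+1) (2n+1)`, `AddSubgroup.mem_sup`). It is convenient to
prove: for every `e₁ ∈ B (n + 1)` (`AddSubgroup.closure_induction`, or write `e₁` as the sum of a list of
`±β y.1 y.2`; note `-β y.1 y.2 = β y.1 y.2` by `h2`) and every `ω` with members of levels `≤ n + 1`
there is `ω'` with members of levels `≤ n + 1` and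
`e₁ + ∑ tot (ω q) - ∑ tot (ω' q) ∈ ⨆ j ∈ Ioc (n+1) (2(n+1)+1), B j`: for a generator
`e₁ = β y.1 y.2`, `y ∈ I (n+1) q₀`, put `ω' = Function.update ω q₀ (y :: ω q₀)`; by `tot_cons`
`tot (y :: L) = β y.1 y.2 + slf β S y + ∑_{u ∈ L} crs β E y u + tot L` and `slf β S y ∈ B (2(n+1))`
(`hs`), `crs β E y u ∈ B ((n+1) + j)`, `1 ≤ j ≤ n + 1` (`hm`).
-/

namespace Pool.Agent.Helper33.CW2

variable {G V A : Type*} [Group G] [AddCommGroup V] [DistribMulAction G V] [AddCommGroup A]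

private lemma sum_update {Q : Type*} [Fintype Q] [DecidableEq Q] (f : List (V × V) → A)
    (ω : Q → List (V × V)) (q₀ : Q) (L : List (V × V)) (c : A) (hL : f L = c + f (ω q₀)) :
    ∑ q, f (Function.update ω q₀ L q) = c + ∑ q, f (ω q) := by
  have h1 : ∀ q, f (Function.update ω q₀ L q) = (if q = q₀ then c else 0) + f (ω q) := by
    intro q
    by_cases h : q = q₀
    · subst h
      rw [Function.update_self, if_pos rfl, hL]
    · rw [Function.update_of_ne h, if_neg h, zero_add]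
  rw [Finset.sum_congr rfl fun q _ => h1 q, Finset.sum_add_distrib]
  congr 1
  rw [Finset.sum_ite_eq' Finset.univ q₀ fun _ => c, if_pos (Finset.mem_univ _)]

private lemma mem_U (B : ℕ → AddSubgroup A) {n j : ℕ} (h : j ∈ Set.Ioc n (2 * n + 1)) {a : A}
    (ha : a ∈ B j) : a ∈ ⨆ j ∈ Set.Ioc n (2 * n + 1), B j :=
  (le_iSup₂ (f := fun j (_ : j ∈ Set.Ioc n (2 * n + 1)) => B j) j h) ha

private lemma U_succ (B : ℕ → AddSubgroup A) (n : ℕ) :
    (⨆ j ∈ Set.Ioc n (2 * n + 1), B j) ≤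
      B (n + 1) ⊔ ⨆ j ∈ Set.Ioc (n + 1) (2 * (n + 1) + 1), B j := by
  refine iSup₂_le fun j hj => ?_
  obtain ⟨h1, h2⟩ := hj
  by_cases h : j = n + 1
  · subst h
    exact le_sup_left
  · intro a ha
    exact (le_sup_right : _ ≤ B (n + 1) ⊔ ⨆ j ∈ Set.Ioc (n + 1) (2 * (n + 1) + 1), B j)
      (mem_U B ⟨by omega, by omega⟩ ha)

private lemma step_abs {Q : Type*} [Fintype Q] [DecidableEq Q] (β : V →+ V →+ A)
    (h2 : ∀ u v : V, β u v + β u v = 0) (E : V → V → List (G × G)) (S : V → List (G × G))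
    (I : ℕ → Q → Set (V × V)) (B : ℕ → AddSubgroup A)
    (hB : ∀ j, B j = AddSubgroup.closure {a | ∃ q, ∃ y ∈ I j q, a = β y.1 y.2})
    (hm : ∀ a b q, 1 ≤ a → 1 ≤ b → ∀ y ∈ I a q, ∀ z ∈ I b q, crs β E y z ∈ B (a + b))
    (hs : ∀ a q, 1 ≤ a → ∀ y ∈ I a q, slf β S y ∈ B (2 * a))
    (n : ℕ) (e : A) (he : e ∈ B (n + 1)) :
    e + e = 0 ∧ ∀ ω : Q → List (V × V),
      (∀ q, ∀ y ∈ ω q, ∃ j, 1 ≤ j ∧ j ≤ n + 1 ∧ y ∈ I j q) →
      ∃ ω' : Q → List (V × V), (∀ q, ∀ y ∈ ω' q, ∃ j, 1 ≤ j ∧ j ≤ n + 1 ∧ y ∈ I j q) ∧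
        e + ∑ q, tot β E S (ω q) - ∑ q, tot β E S (ω' q) ∈
          ⨆ j ∈ Set.Ioc (n + 1) (2 * (n + 1) + 1), B j := by
  rw [hB] at he
  refine AddSubgroup.closure_induction (p := fun e _ => e + e = 0 ∧
    ∀ ω : Q → List (V × V), (∀ q, ∀ y ∈ ω q, ∃ j, 1 ≤ j ∧ j ≤ n + 1 ∧ y ∈ I j q) →
      ∃ ω' : Q → List (V × V), (∀ q, ∀ y ∈ ω' q, ∃ j, 1 ≤ j ∧ j ≤ n + 1 ∧ y ∈ I j q) ∧
        e + ∑ q, tot β E S (ω q) - ∑ q, tot β E S (ω' q) ∈
          ⨆ j ∈ Set.Ioc (n + 1) (2 * (n + 1) + 1), B j) ?_ ?_ ?_ ?_ he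
  · rintro a ⟨q₀, y, hy, rfl⟩
    refine ⟨h2 _ _, fun ω hω => ⟨Function.update ω q₀ (y :: ω q₀), ?_, ?_⟩⟩
    · intro q u hu
      by_cases h : q = q₀
      · subst h
        rw [Function.update_self, List.mem_cons] at hu
        rcases hu with rfl | hu
        · exact ⟨n + 1, by omega, le_refl _, hy⟩
        · exact hω q u hu
      · rw [Function.update_of_ne h] at hu
        exact hω q u hu
    · rw [sum_update (tot β E S) ω q₀ (y :: ω q₀) _ (tot_cons β E S y (ω q₀))]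
      have e1 : β y.1 y.2 + ∑ q, tot β E S (ω q) -
          (β y.1 y.2 + slf β S y + ((ω q₀).map (crs β E y)).sum + ∑ q, tot β E S (ω q)) =
          -(slf β S y + ((ω q₀).map (crs β E y)).sum) := by abel
      rw [e1]
      refine AddSubgroup.neg_mem _ (AddSubgroup.add_mem _ ?_ ?_)
      · exact mem_U B ⟨by omega, by omega⟩ (hs (n + 1) q₀ (by omega) y hy)
      · refine AddSubgroup.list_sum_mem _ ?_
        intro c hc
        rw [List.mem_map] at hc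
        obtain ⟨u, hu, rfl⟩ := hc
        obtain ⟨j, hj1, hj2, huj⟩ := hω q₀ u hu
        exact mem_U B ⟨by omega, by omega⟩ (hm (n + 1) j q₀ (by omega) hj1 y hy u huj)
  · refine ⟨by rw [add_zero], fun ω hω => ⟨ω, hω, ?_⟩⟩
    rw [zero_add, sub_self]
    exact AddSubgroup.zero_mem _
  · rintro a b _ _ ⟨ha2, ha⟩ ⟨hb2, hb⟩
    refine ⟨?_, fun ω hω => ?_⟩
    · rw [add_add_add_comm, ha2, hb2, add_zero]
    · obtain ⟨ω₁, h₁, h₁'⟩ := ha ω hω
      obtain ⟨ω₂, h₂, h₂'⟩ := hb ω₁ h₁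
      refine ⟨ω₂, h₂, ?_⟩
      have h3 := AddSubgroup.add_mem _ h₁' h₂'
      have e1 : a + ∑ q, tot β E S (ω q) - ∑ q, tot β E S (ω₁ q) +
          (b + ∑ q, tot β E S (ω₁ q) - ∑ q, tot β E S (ω₂ q)) =
          a + b + ∑ q, tot β E S (ω q) - ∑ q, tot β E S (ω₂ q) := by abel
      rw [e1] at h3
      exact h3
  · rintro a _ ⟨ha2, ha⟩
    have h3 : -a = a := neg_eq_of_add_eq_zero_left ha2
    refine ⟨?_, fun ω hω => ?_⟩
    · rw [h3]
      exact ha2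
    · rw [h3]
      exact ha ω hω

theorem round_abs {Q : Type*} [Fintype Q] [DecidableEq Q] (β : V →+ V →+ A)
    (h2 : ∀ u v : V, β u v + β u v = 0) (E : V → V → List (G × G)) (S : V → List (G × G))
    (I : ℕ → Q → Set (V × V)) (B : ℕ → AddSubgroup A)
    (hB : ∀ j, B j = AddSubgroup.closure {a | ∃ q, ∃ y ∈ I j q, a = β y.1 y.2})
    (hm : ∀ a b q, 1 ≤ a → 1 ≤ b → ∀ y ∈ I a q, ∀ z ∈ I b q, crs β E y z ∈ B (a + b))
    (hs : ∀ a q, 1 ≤ a → ∀ y ∈ I a q, slf β S y ∈ B (2 * a))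
    (n : ℕ) (z : A) (hz : z ∈ B 1) :
    ∃ ω : Q → List (V × V),
      z - ∑ q, tot β E S (ω q) ∈ ⨆ j ∈ Set.Ioc n (2 * n + 1), B j := by
  have key : ∃ ω : Q → List (V × V), (∀ q, ∀ y ∈ ω q, ∃ j, 1 ≤ j ∧ j ≤ n ∧ y ∈ I j q) ∧
      z - ∑ q, tot β E S (ω q) ∈ ⨆ j ∈ Set.Ioc n (2 * n + 1), B j := by
    induction n with
    | zero =>
      refine ⟨fun _ => [], ?_, ?_⟩
      · intro q y hy
        exact absurd hy List.not_mem_nil
      · have e1 : ∑ q : Q, tot β E S ((fun _ => [] : Q → List (V × V)) q) = 0 :=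
          Finset.sum_eq_zero fun q _ => tot_nil β E S
        rw [e1, sub_zero]
        exact mem_U B ⟨by omega, by omega⟩ hz
    | succ n ih =>
      obtain ⟨ω, hω, he⟩ := ih
      obtain ⟨e₁, he₁, e', he', hsum⟩ := AddSubgroup.mem_sup.1 (U_succ B n he)
      obtain ⟨-, hstep⟩ := step_abs β h2 E S I B hB hm hs n e₁ he₁
      obtain ⟨ω', hω', hU⟩ := hstep ω fun q y hy => by
        obtain ⟨j, h1, h2', h3⟩ := hω q y hy
        exact ⟨j, h1, by omega, h3⟩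
      refine ⟨ω', hω', ?_⟩
      have h4 := AddSubgroup.add_mem _ he' hU
      have e1 : e' + (e₁ + ∑ q, tot β E S (ω q) - ∑ q, tot β E S (ω' q)) =
          z - ∑ q, tot β E S (ω' q) := by
        have e2 : z = e₁ + e' + ∑ q, tot β E S (ω q) := by
          rw [hsum]
          abel
        rw [e2]
        abel
      rw [e1] at h4
      exact h4
  obtain ⟨ω, -, h⟩ := key
  exact ⟨ω, h⟩

end Pool.Agent.Helper33.CW2
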