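import Pool.Agent.Helper33.CW2.Merge
import Pool.Agent.Helper33.CW2.Round

/-!
# CW2-Rounds: iteration of the rounds

PLAN. `one_round`: apply `round_abs` with `Q = Fin k → Fin 5`,
`I j q = Itm x W κ (R + j * (16 * κ)) (j * D) q`, `B j = BI β x W κ (R + j * (16 * κ)) (j * D)` and
`n = l`. `hm`: `crs β E y z` is the sum over `p ∈ E y.1 z.1` of `β (p.1 • y.2) (p.2 • z.2)`
(`y.1, z.1 ∈ W` is part of the definition of `Itm`), each is in `B (a + b)` by `merge_items` with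
radius `R + max a b * (16 * κ)` (`Itm_mono`), and `max a b + 1 ≤ a + b` since `1 ≤ a, b`; the hypothesis
`p.2⁻¹ * p.1 ∈ CC x lam ε` is enlarged with `CC_mono` (`lam ≤ R`). `hs`: the same with `S y.1`, `y = z`
(`2 * a = a + a`). Conclusion: all `B j`, `l < j ≤ 2 * l + 1`, are contained in
`BI β x W κ (R + (2 * l + 1) * (16 * κ)) ((l + 1) * D)` (`BI_mono`, `iSup₂_le`).
`rounds`: induction on `r`: after `r` rounds `z = s + e`, `s` a sum of `r * 5 ^ k` values of `tot`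
`e ∈ BI β x W κ (R + r * ((2 * l + 1) * (16 * κ))) ((l + 1) ^ r)` (`Fin.sum_univ_succ` or
`Fin.sum_univ_castSucc`, `Fin.cons`/`Fin.snoc` for the new `ω`). In `one_round` the start is
`z ∈ B 1`: `B 1` has radius `R + 1 * (16 * κ)` and degree `1 * D` (`BI_mono` for the radius).
-/

namespace Pool.Agent.Helper33.CW2

variable {G V A : Type*} [Group G] [AddCommGroup V] [DistribMulAction G V] [AddCommGroup A]
  {k : ℕ} (x : Fin k → G)

theorem one_round (β : V →+ V →+ A) (hsym : ∀ u v : V, β u v = β v u)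
    (hinv : ∀ (g : G) (u v : V), β (g • u) (g • v) = β u v) (h2 : ∀ u v : V, β u v + β u v = 0)
    (E : V → V → List (G × G)) (S : V → List (G × G)) {W : Set V} {κ lam : ℕ} (hκ : 1 ≤ κ)
    (hE : ∀ w ∈ W, ∀ w' ∈ W, ∀ p ∈ E w w', ∃ ε, bx κ ε ∧ p.2⁻¹ * p.1 ∈ CC x lam ε)
    (hS : ∀ w ∈ W, ∀ p ∈ S w, ∃ ε, bx κ ε ∧ p.2⁻¹ * p.1 ∈ CC x lam ε)
    {R D : ℕ} (hR : lam ≤ R) (l : ℕ) {z : A} (hz : z ∈ BI β x W κ R D) :
    ∃ ω : (Fin k → Fin 5) → List (V × V), z - ∑ q, tot β E S (ω q) ∈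
      BI β x W κ (R + (2 * l + 1) * (16 * κ)) ((l + 1) * D) := by
  classical
  have hmem : ∀ (ρ a b : ℕ) (q : Fin k → Fin 5), R ≤ ρ → ρ + 16 * κ ≤ R + (a + b) * (16 * κ) →
      ∀ y ∈ Itm x W κ ρ (a * D) q, ∀ z ∈ Itm x W κ ρ (b * D) q, ∀ (p : G × G) (ε : Fin k → ℤ),
        bx κ ε → p.2⁻¹ * p.1 ∈ CC x lam ε →
        β (p.1 • y.2) (p.2 • z.2) ∈ BI β x W κ (R + (a + b) * (16 * κ)) ((a + b) * D) := by
    intro ρ a b q h1 h3 y hy z hz p ε hε hp
    obtain ⟨q', u, hu, he⟩ := merge_items x β hsym hinv hκ hy hz hε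
      (CC_mono x (hR.trans h1) hp)
    rw [he]
    exact AddSubgroup.subset_closure ⟨q', u, Itm_mono x (le_refl W) h3 (by rw [add_mul]) hu, rfl⟩
  obtain ⟨ω, hω⟩ := round_abs (Q := Fin k → Fin 5) β h2 E S
    (fun j q => Itm x W κ (R + j * (16 * κ)) (j * D) q)
    (fun j => BI β x W κ (R + j * (16 * κ)) (j * D))
    (fun j => rfl) (by
      intro a b q ha hb y hy z hz
      unfold crs
      refine AddSubgroup.list_sum_mem _ ?_
      intro v hv
      obtain ⟨p, hp, rfl⟩ := List.mem_map.mp hv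
      obtain ⟨ε, hε, hp'⟩ := hE y.1 hy.1 z.1 hz.1 p hp
      have h3 : R + max a b * (16 * κ) + 16 * κ ≤ R + (a + b) * (16 * κ) := by
        have h4 : max a b + 1 ≤ a + b := by omega
        calc R + max a b * (16 * κ) + 16 * κ = R + (max a b + 1) * (16 * κ) := by ring
          _ ≤ R + (a + b) * (16 * κ) := by gcongr
      exact hmem (R + max a b * (16 * κ)) a b q (Nat.le_add_right _ _) h3 y
        (Itm_mono x (le_refl W) (by gcongr; exact le_max_left a b) (le_refl _) hy) z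
        (Itm_mono x (le_refl W) (by gcongr; exact le_max_right a b) (le_refl _) hz) p ε hε hp')
    (by
      intro a q ha y hy
      unfold slf
      refine AddSubgroup.list_sum_mem _ ?_
      intro v hv
      obtain ⟨p, hp, rfl⟩ := List.mem_map.mp hv
      obtain ⟨ε, hε, hp'⟩ := hS y.1 hy.1 p hp
      have h3 : R + a * (16 * κ) + 16 * κ ≤ R + (a + a) * (16 * κ) := by
        have h4 : a + 1 ≤ a + a := by omega
        calc R + a * (16 * κ) + 16 * κ = R + (a + 1) * (16 * κ) := by ring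
          _ ≤ R + (a + a) * (16 * κ) := by gcongr
      have h5 := hmem (R + a * (16 * κ)) a a q (Nat.le_add_right _ _) h3 y hy y hy p ε hε hp'
      rw [two_mul]
      exact h5) l z
    (BI_mono x β (le_refl W) (Nat.le_add_right _ _) (by rw [one_mul]) hz)
  refine ⟨ω, ?_⟩
  refine (iSup₂_le ?_ : (⨆ j ∈ Set.Ioc l (2 * l + 1),
    BI β x W κ (R + j * (16 * κ)) (j * D)) ≤ _) hω
  intro j hj
  refine BI_mono x β (le_refl W) ?_ ?_
  · gcongr
    exact hj.2
  · gcongr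
    exact hj.1

theorem rounds (β : V →+ V →+ A) (hsym : ∀ u v : V, β u v = β v u)
    (hinv : ∀ (g : G) (u v : V), β (g • u) (g • v) = β u v) (h2 : ∀ u v : V, β u v + β u v = 0)
    (E : V → V → List (G × G)) (S : V → List (G × G)) {W : Set V} {κ lam : ℕ} (hκ : 1 ≤ κ)
    (hE : ∀ w ∈ W, ∀ w' ∈ W, ∀ p ∈ E w w', ∃ ε, bx κ ε ∧ p.2⁻¹ * p.1 ∈ CC x lam ε)
    (hS : ∀ w ∈ W, ∀ p ∈ S w, ∃ ε, bx κ ε ∧ p.2⁻¹ * p.1 ∈ CC x lam ε)
    {R : ℕ} (hR : lam ≤ R) (l r : ℕ) {z : A} (hz : z ∈ BI β x W κ R 1) :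
    ∃ ω : Fin r → (Fin k → Fin 5) → List (V × V), z - ∑ i, ∑ q, tot β E S (ω i q) ∈
      BI β x W κ (R + r * ((2 * l + 1) * (16 * κ))) ((l + 1) ^ r) := by
  induction r with
  | zero =>
    refine ⟨fun _ _ => [], ?_⟩
    rw [Finset.univ_eq_empty, Finset.sum_empty, sub_zero, zero_mul, add_zero, pow_zero]
    exact hz
  | succ r ih =>
    obtain ⟨ω, hω⟩ := ih
    obtain ⟨ω', hω'⟩ := one_round x β hsym hinv h2 E S hκ hE hS
      (hR.trans (Nat.le_add_right R (r * ((2 * l + 1) * (16 * κ))))) l hω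
    refine ⟨Fin.snoc ω ω', ?_⟩
    rw [Fin.sum_univ_castSucc]
    simp only [Fin.snoc_castSucc, Fin.snoc_last]
    rw [← sub_sub, pow_succ, mul_comm ((l + 1) ^ r) (l + 1)]
    have h3 : R + (r + 1) * ((2 * l + 1) * (16 * κ)) =
        R + r * ((2 * l + 1) * (16 * κ)) + (2 * l + 1) * (16 * κ) := by ring
    rw [h3]
    exact hω'

end Pool.Agent.Helper33.CW2
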