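import Pool.Agent.Helper33.CW2.Defs

/-!
# CW2-Setup: the module `V = N / N² [N, N]` and the form `β`

`om N hc a b : Additive (Subgroup.center G)` is the commutator `⁅a, b⁆` as an element of the centre
(`Helper26/CommWidth.lean`, with `om_mul_left`, `om_mul_right`, `om_swap`, `om_inv_left`, `om_cj`, ...);
`cj N g a = g a g⁻¹` as an element of `N`.
PLAN. `KK : Subgroup N := Subgroup.normalClosure {y | ∃ b, y = b ^ 2}`; in `N ⧸ KK` all squares are
trivial, so it is commutative (`a b = (a b)⁻¹ = b⁻¹ a⁻¹ = b a`); `V = Additive (N ⧸ KK)` with the
`AddCommGroup` structure built from that (`CommGroup` instance with the given group structure and the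
commutativity proof, then `Additive`), `π a = Additive.ofMul (QuotientGroup.mk a)`. The action:
`g • v` for `v = π a` is `π (cj N g a)`: conjugation by `g` is an automorphism of `N` (e.g.
`MulAut.conjNormal g`, which maps squares to squares, hence `KK` into `KK`), use `QuotientGroup.map`;
`DistribMulAction` axioms by `QuotientGroup.induction_on`. The form: for fixed `a` the map
`b ↦ om N hc a b` is a homomorphism `N → Multiplicative (Additive center)` killing squares
(`om a (b²) = om a b + om a b = 0` by `he`), so it kills `KK` (`Subgroup.normalClosure_le_normal` into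
the kernel) and descends to `V`; it is additive in `a` and kills squares, so it descends in `a` as
well. It may be easier to avoid `QuotientGroup.lift` for the outer variable: define
`β (π a) = ` the descended map, using `Quotient.out` / `Function.surjInv` for the outer variable and
the lemma: `om a b` depends only on the class of `a` (if `a⁻¹ a' ∈ KK` then `om a b = om a' b`).
A convenient shape: first prove `∀ u ∈ KK, ∀ b, om u b = 0`.
(The type `Additive (Subgroup.center G)` is an `AddCommGroup` through the local instance
`centerCommGroup`, as in `Helper26/CommWidth.lean`.)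
-/

open scoped commutatorElement

namespace Pool.Agent.Helper33.CW2

open Pool.Agent.Helper26.CW

attribute [local instance] centerCommGroup

universe u

section setupAux

variable {G : Type u} [Group G] (N : Subgroup G)

/-- The normal subgroup generated by the squares. -/
def sqK : Subgroup N := Subgroup.normalClosure {y | ∃ b, y = b ^ 2}

instance sqK_normal : (sqK N).Normal := by
  unfold sqK
  infer_instance

lemma sqK_sq (a : N) : a * a ∈ sqK N :=
  Subgroup.subset_normalClosure ⟨a, (sq a).symm⟩

lemma quo_sq (x : N ⧸ sqK N) : x * x = 1 := by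
  induction x using QuotientGroup.induction_on with
  | H a =>
    rw [← QuotientGroup.mk_mul, QuotientGroup.eq_one_iff]
    exact sqK_sq N a

/-- The quotient by the squares is commutative. -/
@[reducible] def quoComm : CommGroup (N ⧸ sqK N) :=
  { (inferInstance : Group (N ⧸ sqK N)) with
    mul_comm := by
      intro a b
      have h := quo_sq N (a * b)
      have ha : a⁻¹ = a := inv_eq_of_mul_eq_one_right (quo_sq N a)
      have hb : b⁻¹ = b := inv_eq_of_mul_eq_one_right (quo_sq N b)
      have hab : (a * b)⁻¹ = a * b := inv_eq_of_mul_eq_one_right h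
      rw [← hab, mul_inv_rev, ha, hb] }

lemma sqK_le_comap [hN : N.Normal] (g : G) :
    sqK N ≤ (sqK N).comap (MulAut.conjNormal (H := N) g).toMonoidHom := by
  have h : Subgroup.normalClosure {y : N | ∃ b, y = b ^ 2} ≤
      (sqK N).comap (MulAut.conjNormal (H := N) g).toMonoidHom := by
    refine Subgroup.normalClosure_le_normal ?_
    rintro y ⟨b, rfl⟩
    change (MulAut.conjNormal g).toMonoidHom (b ^ 2) ∈ sqK N
    rw [map_pow, sq]
    exact sqK_sq N _
  exact h

/-- Conjugation on the quotient. -/
def quoCj [hN : N.Normal] (g : G) : (N ⧸ sqK N) →* (N ⧸ sqK N) :=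
  QuotientGroup.map (sqK N) (sqK N) (MulAut.conjNormal g).toMonoidHom (sqK_le_comap N g)

lemma quoCj_mk [hN : N.Normal] (g : G) (a : N) :
    quoCj N g (QuotientGroup.mk a) = QuotientGroup.mk (cj N g a) := rfl

variable (hc : ∀ r ∈ N, ∀ s ∈ N, ⁅r, s⁆ ∈ Subgroup.center G)
    (he : ∀ r ∈ N, ∀ s ∈ N, ⁅r, s⁆ ^ 2 = 1)

include he in
lemma om_two (a b : N) : om N hc a b + om N hc a b = 0 := by
  apply om_ext
  change ⁅(a : G), (b : G)⁆ * ⁅(a : G), (b : G)⁆ = 1
  rw [← sq]
  exact he a a.2 b b.2

include he in
lemma om_sqK (u : N) (hu : u ∈ sqK N) (b : N) : om N hc u b = 0 := by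
  let φ : N →* Multiplicative (Additive (Subgroup.center G)) :=
    MonoidHom.mk' (fun a => Multiplicative.ofAdd (om N hc a b)) (fun a c => by
      change Multiplicative.ofAdd (om N hc (a * c) b) = _
      rw [om_mul_left]
      rfl)
  have h : sqK N ≤ φ.ker := by
    refine Subgroup.normalClosure_le_normal ?_
    rintro y ⟨c, rfl⟩
    change Multiplicative.ofAdd (om N hc (c ^ 2) b) = 1
    rw [sq, om_mul_left, om_two N hc he]
    rfl
  have h2 : φ u = 1 := h hu
  exact Multiplicative.ofAdd.injective h2

include he in
lemma om_congr_left (a a' b : N) (h : a⁻¹ * a' ∈ sqK N) : om N hc a b = om N hc a' b := by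
  have : a' = a * (a⁻¹ * a') := by group
  rw [this, om_mul_left, om_sqK N hc he _ h, add_zero]

include he in
lemma om_congr (a b a' b' : N) (h : a⁻¹ * a' ∈ sqK N) (h' : b⁻¹ * b' ∈ sqK N) :
    om N hc a b = om N hc a' b' := by
  rw [om_congr_left N hc he a a' b h, om_swap, om_congr_left N hc he b b' a' h', ← om_swap]

/-- The form on the quotient. -/
def quoForm (v w : N ⧸ sqK N) : Additive (Subgroup.center G) :=
  Quotient.liftOn₂' v w (fun a b => om N hc a b) (fun a b a' b' h h' =>
    om_congr N hc he a b a' b' (QuotientGroup.leftRel_apply.1 h) (QuotientGroup.leftRel_apply.1 h'))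

lemma quoForm_mk (a b : N) : quoForm N hc he (QuotientGroup.mk a) (QuotientGroup.mk b) =
    om N hc a b := rfl

lemma quoForm_mul_right (v w w' : N ⧸ sqK N) :
    quoForm N hc he v (w * w') = quoForm N hc he v w + quoForm N hc he v w' := by
  induction v using QuotientGroup.induction_on with
  | H a =>
    induction w using QuotientGroup.induction_on with
    | H b =>
      induction w' using QuotientGroup.induction_on with
      | H c => exact om_mul_right N hc a b c

lemma quoForm_mul_left (v v' w : N ⧸ sqK N) :
    quoForm N hc he (v * v') w = quoForm N hc he v w + quoForm N hc he v' w := by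
  induction v using QuotientGroup.induction_on with
  | H a =>
    induction w using QuotientGroup.induction_on with
    | H b =>
      induction v' using QuotientGroup.induction_on with
      | H c => exact om_mul_left N hc a c b

end setupAux

theorem setup {G : Type u} [Group G] (N : Subgroup G) [hN : N.Normal]
    (hc : ∀ r ∈ N, ∀ s ∈ N, ⁅r, s⁆ ∈ Subgroup.center G)
    (he : ∀ r ∈ N, ∀ s ∈ N, ⁅r, s⁆ ^ 2 = 1) :
    ∃ (V : Type u) (_ : AddCommGroup V) (_ : DistribMulAction G V) (π : N → V)
      (β : V →+ V →+ Additive (Subgroup.center G)),
      Function.Surjective π ∧ (∀ a b, π (a * b) = π a + π b) ∧ (∀ v : V, v + v = 0) ∧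
      (∀ (g : G) a, π (cj N g a) = g • π a) ∧ (∀ a b, β (π a) (π b) = om N hc a b) := by
  let _ : CommGroup (N ⧸ sqK N) := quoComm N
  let act : DistribMulAction G (Additive (N ⧸ sqK N)) :=
    { smul := fun g v => Additive.ofMul (quoCj N g (Additive.toMul v))
      one_smul := fun v => by
        change Additive.ofMul (quoCj N 1 (Additive.toMul v)) = v
        apply Additive.toMul.injective
        change quoCj N 1 (Additive.toMul v) = Additive.toMul v
        generalize Additive.toMul v = x
        induction x using QuotientGroup.induction_on with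
        | H a =>
          rw [quoCj_mk]
          congr 1
          exact Subtype.ext (by simp [cj])
      mul_smul := fun g h v => by
        change Additive.ofMul (quoCj N (g * h) (Additive.toMul v)) =
          Additive.ofMul (quoCj N g (quoCj N h (Additive.toMul v)))
        generalize Additive.toMul v = x
        induction x using QuotientGroup.induction_on with
        | H a =>
          rw [quoCj_mk, quoCj_mk, quoCj_mk]
          congr 2
          exact Subtype.ext (by simp [cj, mul_assoc])
      smul_zero := fun g => by
        change Additive.ofMul (quoCj N g 1) = Additive.ofMul 1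
        rw [map_one]
      smul_add := fun g v w => by
        change Additive.ofMul (quoCj N g (Additive.toMul v * Additive.toMul w)) =
          Additive.ofMul (quoCj N g (Additive.toMul v) * quoCj N g (Additive.toMul w))
        rw [map_mul] }
  let B : Additive (N ⧸ sqK N) →+ Additive (N ⧸ sqK N) →+ Additive (Subgroup.center G) :=
    AddMonoidHom.mk' (fun v => AddMonoidHom.mk'
      (fun w => quoForm N hc he (Additive.toMul v) (Additive.toMul w))
      (fun w w' => quoForm_mul_right N hc he _ _ _))
      (fun v v' => DFunLike.ext _ _ fun w => quoForm_mul_left N hc he _ _ _)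
  refine ⟨Additive (N ⧸ sqK N), inferInstance, act,
    fun a => Additive.ofMul (QuotientGroup.mk a), B, ?_, ?_, ?_, ?_, ?_⟩
  · intro v
    obtain ⟨a, ha⟩ := QuotientGroup.mk_surjective (Additive.toMul v)
    exact ⟨a, Additive.toMul.injective ha⟩
  · intro a b
    rfl
  · intro v
    apply Additive.toMul.injective
    exact quo_sq N (Additive.toMul v)
  · intro g a
    change Additive.ofMul (QuotientGroup.mk (cj N g a)) =
      Additive.ofMul (quoCj N g (QuotientGroup.mk a))
    rw [quoCj_mk]
  · intro a b
    rfl

end Pool.Agent.Helper33.CW2
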