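import Pool.Agent.Helper33.CW2.Start
import Pool.Agent.Helper33.CW2.Rounds
import Pool.Agent.Helper33.CW2.Nil
import Pool.Agent.Helper33.CW2.Grow
import Pool.Agent.Helper33.CW2.Setup
import Pool.Agent.Helper33.CW2.EL

/-!
# CW2-Core: assembly, `[N, N]` central of exponent 2
-/

open scoped commutatorElement

namespace Pool.Agent.Helper33.CW2

open Pool.Agent.Helper26.CW Pool.Agent.Helper17.CW

attribute [local instance] centerCommGroup

universe u

lemma isProdComm_sum {G : Type u} [Group G] {k : ℕ} {ι : Type*} (s : Finset ι)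
    (f : ι → Additive (Subgroup.center G))
    (hf : ∀ i ∈ s, IsProdComm k ((Additive.toMul (f i) : Subgroup.center G) : G)) :
    IsProdComm (s.card * k) ((Additive.toMul (∑ i ∈ s, f i) : Subgroup.center G) : G) := by
  classical
  induction s using Finset.induction_on with
  | empty =>
    rw [Finset.sum_empty, Pool.Agent.Helper26.CW.toMul_zero]
    exact IsProdComm.one _
  | insert i s hi ih =>
    rw [Finset.sum_insert hi, Finset.card_insert_of_notMem hi,
      Pool.Agent.Helper26.CW.toMul_add, Nat.succ_mul, add_comm]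
    exact (hf i (Finset.mem_insert_self i s)).mul
      (ih fun j hj => hf j (Finset.mem_insert_of_mem hj))

/-- The subgroup generated by the squares of the elements of `N`. -/
def SQ {G : Type u} [Group G] (N : Subgroup G) : Subgroup G :=
  Subgroup.closure {y | ∃ b ∈ N, y = b ^ 2}

theorem core (k m c a : ℕ) {G : Type u} [Group G] (x : Fin k → G)
    (hx : Subgroup.closure (Set.range x) = ⊤) (N : Subgroup G) [hN : N.Normal]
    (hc : ∀ r ∈ N, ∀ s ∈ N, ⁅r, s⁆ ∈ Subgroup.center G)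
    (he : ∀ r ∈ N, ∀ s ∈ N, ⁅r, s⁆ ^ 2 = 1) (hmN : gam (commutator G) m ≤ N)
    (hcN : ∀ h ∈ gam (commutator G) c, ∀ n ∈ N, ⁅h, n⁆ ∈ SQ N)
    (ha : ∀ h ∈ commutator G, ∀ n ∈ N, ⁅h ^ (2 ^ a), n⁆ ∈ SQ N) {z : G}
    (hz : z ∈ ⁅gam (commutator G) (m + 1), gam (commutator G) (m + 1)⁆) :
    IsProdComm ((k * (c * (c + 1) / 2) + 1) * (5 ^ k * k)) z := by
  rcases Nat.eq_zero_or_pos k with hk | hk
  · subst hk
    have h1 : z = 1 := by
      have h2 : (⊤ : Subgroup G) = ⊥ := by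
        rw [← hx, Set.range_eq_empty, Subgroup.closure_empty]
      have h3 := Subgroup.mem_top z
      rw [h2] at h3
      exact Subgroup.mem_bot.1 h3
    rw [h1]
    exact IsProdComm.one _
  obtain ⟨V, _, _, π, β, hsurj, hπ, hV, hcj, hβ⟩ := setup N hc he
  have h2 : ∀ u v : V, β u v + β u v = 0 := by
    intro u v
    rw [← AddMonoidHom.map_add, hV, map_zero]
  have hsym : ∀ u v : V, β u v = β v u := by
    intro u v
    obtain ⟨b, rfl⟩ := hsurj u
    obtain ⟨d, rfl⟩ := hsurj v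
    have h3 := h2 (π b) (π d)
    rw [hβ] at h3
    rw [hβ, hβ, om_swap N hc d b]
    exact eq_neg_of_add_eq_zero_left h3
  have hinv : ∀ (g : G) (u v : V), β (g • u) (g • v) = β u v := by
    intro g u v
    obtain ⟨b, rfl⟩ := hsurj u
    obtain ⟨d, rfl⟩ := hsurj v
    rw [← hcj, ← hcj, hβ, hβ, om_cj]
  have hπ1 : π 1 = 0 := by
    have h3 := hπ 1 1
    rw [mul_one] at h3
    exact left_eq_add.1 h3
  -- `π` kills the squares
  have hsq : ∀ y ∈ SQ N, ∃ hy : y ∈ N, π ⟨y, hy⟩ = 0 := by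
    intro y hy
    unfold SQ at hy
    induction hy using Subgroup.closure_induction with
    | mem y hy =>
      obtain ⟨b, hb, rfl⟩ := hy
      refine ⟨pow_mem hb 2, ?_⟩
      have h3 : (⟨b ^ 2, pow_mem hb 2⟩ : N) = ⟨b, hb⟩ * ⟨b, hb⟩ := Subtype.ext (pow_two b)
      rw [h3, hπ, hV]
    | one => exact ⟨one_mem _, hπ1⟩
    | mul y y' _ _ h h' =>
      obtain ⟨hy, h3⟩ := h
      obtain ⟨hy', h4⟩ := h'
      refine ⟨mul_mem hy hy', ?_⟩
      have h5 : (⟨y * y', mul_mem hy hy'⟩ : N) = ⟨y, hy⟩ * ⟨y', hy'⟩ := rfl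
      rw [h5, hπ, h3, h4, add_zero]
    | inv y _ h =>
      obtain ⟨hy, h3⟩ := h
      refine ⟨inv_mem hy, ?_⟩
      have h5 := hπ ⟨y, hy⟩ ⟨y, hy⟩⁻¹
      rw [mul_inv_cancel, hπ1, h3, zero_add] at h5
      exact h5.symm
  have hNt : ∀ h : G, (∀ n ∈ N, ⁅h, n⁆ ∈ SQ N) → ∀ v : V, h • v = v := by
    intro h hh v
    obtain ⟨b, rfl⟩ := hsurj v
    obtain ⟨hy, h3⟩ := hsq _ (hh b b.2)
    have h4 : cj N h b = ⟨⁅h, (b : G)⁆, hy⟩ * b := by
      apply Subtype.ext
      change h * (b : G) * h⁻¹ = ⁅h, (b : G)⁆ * b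
      rw [commutatorElement_def]
      group
    rw [← hcj, h4, hπ, h3, zero_add]
  obtain ⟨E, S, hES⟩ := elemma x hx N hc he π β hsurj hπ hV hcj hβ
  obtain ⟨ζ, hζ, rfl⟩ := start0 N m hmN hc π β hπ hcj hinv hβ hz
  obtain ⟨W, hW, R₀, hζ1⟩ := start1 x hx β hζ
  obtain ⟨κ, lam, hκ, hE, hS⟩ := exists_lam x hx E S hW
  obtain ⟨l, hl⟩ := grow k c a (R₀ + lam) κ
  obtain ⟨ω, hω⟩ := rounds x β hsym hinv h2 E S hκ hE hS (R := R₀ + lam) (Nat.le_add_left _ _) l
    (k * (c * (c + 1) / 2) + 1)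
    (BI_mono x β (le_refl W) (Nat.le_add_right _ _) (le_refl 1) (hζ1 κ))
  obtain ⟨R', hR'⟩ : ∃ R', R' = R₀ + lam +
    (k * (c * (c + 1) / 2) + 1) * ((2 * l + 1) * (16 * κ)) := ⟨_, rfl⟩
  rw [← hR'] at hω hl
  obtain ⟨t, ht⟩ := TT_fg x R'
  have hzero : ∀ e ∈ BI β x W κ R' ((l + 1) ^ (k * (c * (c + 1) / 2) + 1)), e = 0 := by
    intro e hee
    have h3 : BI β x W κ R' ((l + 1) ^ (k * (c * (c + 1) / 2) + 1)) ≤ ⊥ := by
      unfold BI
      rw [AddSubgroup.closure_le]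
      rintro _ ⟨q, y, ⟨-, ms, δ, g, w, -, hlen, hms, -, -, -, hy⟩, rfl⟩
      have h4 : y.2 = 0 := by
        rw [hy]
        refine nil_kill hV (n := k * (2 * R' + 1) ^ k) (by positivity) t (commutator G) ?_ a c
          (fun h hh v => hNt h (hcN h hh) v) (fun h hh v => hNt _ (ha h hh) v) ms ?_
          (hl.trans hlen) _
        · rw [← ht]; exact TT_le x R'
        · intro m hm; rw [← ht]; exact hms m hm
      rw [h4, map_zero]
      exact AddSubgroup.zero_mem _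
    exact AddSubgroup.mem_bot.1 (h3 hee)
  have h5 := sub_eq_zero.1 (hzero _ hω)
  rw [h5]
  have h6 := isProdComm_sum (k := 5 ^ k * k)
    (Finset.univ : Finset (Fin (k * (c * (c + 1) / 2) + 1)))
    (fun i => ∑ q, tot β E S (ω i q)) (by
      intro i _
      have h7 := isProdComm_sum (k := k) (Finset.univ : Finset (Fin k → Fin 5))
        (fun q => tot β E S (ω i q)) (fun q _ => hES (ω i q))
      rwa [Finset.card_univ, Fintype.card_fun, Fintype.card_fin, Fintype.card_fin] at h7)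
  rwa [Finset.card_univ, Fintype.card_fin] at h6

end Pool.Agent.Helper33.CW2
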