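import Pool.Agent.Helper17.CW.Final

/-!
# CW2: commutator width of metabelian-by-(nilpotent of exponent `2^a`)-by-abelian groups

Definitions. `gam H n` is the lower central series of the subgroup `H`, `IsProdComm n g` says that
`g` is a product of `n` commutators.
-/

open scoped commutatorElement

namespace Pool.Agent.Helper33.CW2

open Pool.Agent.Helper26.CW Pool.Agent.Helper17.CW

section forms

variable {G V A : Type*} [Group G] [AddCommGroup V] [DistribMulAction G V] [AddCommGroup A]

/-- The cross terms of two pairs. -/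
def crs (β : V →+ V →+ A) (E : V → V → List (G × G)) (x y : V × V) : A :=
  ((E x.1 y.1).map fun p => β (p.1 • x.2) (p.2 • y.2)).sum

/-- The self terms of a pair. -/
def slf (β : V →+ V →+ A) (S : V → List (G × G)) (x : V × V) : A :=
  ((S x.1).map fun p => β (p.1 • x.2) (p.2 • x.2)).sum

/-- The value of a list of pairs. -/
def tot (β : V →+ V →+ A) (E : V → V → List (G × G)) (S : V → List (G × G)) :
    List (V × V) → A
  | [] => 0
  | x :: L => β x.1 x.2 + slf β S x + (L.map (crs β E x)).sum + tot β E S L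

/-- `(m₁ - 1) (m₂ - 1) ⋯ (m_D - 1) v`. -/
def ops (ms : List G) (v : V) : V := ms.foldr (fun m v => m • v - v) v

@[simp] lemma ops_nil (v : V) : ops ([] : List G) v = v := rfl

@[simp] lemma ops_cons (m : G) (ms : List G) (v : V) :
    ops (m :: ms) v = m • ops ms v - ops ms v := rfl

lemma tot_nil (β : V →+ V →+ A) (E : V → V → List (G × G)) (S : V → List (G × G)) :
    tot β E S [] = 0 := rfl

lemma tot_cons (β : V →+ V →+ A) (E : V → V → List (G × G)) (S : V → List (G × G))
    (x : V × V) (L : List (V × V)) :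
    tot β E S (x :: L) = β x.1 x.2 + slf β S x + (L.map (crs β E x)).sum + tot β E S L := rfl

end forms

section geometry

variable {G : Type*} [Group G] {k : ℕ}

/-- The element `x₁^γ₁ ⋯ x_k^γ_k`. -/
def gp (x : Fin k → G) (γ : Fin k → ℤ) : G := (List.ofFn fun i => x i ^ γ i).prod

/-- The Schreier generators of the commutator subgroup. -/
def tau (x : Fin k → G) (γ : Fin k → ℤ) (i : Fin k) : G :=
  gp x γ * x i * (gp x (γ + Pi.single i 1))⁻¹

/-- The box of radius `R`. -/
def bx (R : ℕ) (γ : Fin k → ℤ) : Prop := ∀ i, |γ i| ≤ (R : ℤ)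

/-- The subgroup generated by the Schreier generators in the box of radius `R`. -/
def TT (x : Fin k → G) (R : ℕ) : Subgroup G :=
  Subgroup.closure {t | ∃ γ i, bx R γ ∧ t = tau x γ i}

/-- Elements of displacement `δ` and content in the box of radius `R`. -/
def CC (x : Fin k → G) (R : ℕ) (δ : Fin k → ℤ) : Set G := {g | g * (gp x δ)⁻¹ ∈ TT x R}

/-- The class of a displacement in the box of radius `2κ`. -/
def cls (κ : ℕ) (δ : Fin k → ℤ) : Fin k → Fin 5 := fun i =>
  ⟨((δ i + 2 * κ) / κ).toNat % 5, Nat.mod_lt _ (by norm_num)⟩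

end geometry

section items

variable {G V : Type*} [Group G] [AddCommGroup V] [DistribMulAction G V] {k : ℕ}

/-- Items of radius `R`, degree at least `D`, displacement in the box of radius `2κ` and
class `q`. -/
def Itm (x : Fin k → G) (W : Set V) (κ R D : ℕ) (q : Fin k → Fin 5) : Set (V × V) :=
  {y | y.1 ∈ W ∧ ∃ (ms : List G) (δ : Fin k → ℤ) (g : G) (w : V), w ∈ W ∧ D ≤ ms.length ∧
    (∀ m ∈ ms, m ∈ TT x R) ∧ bx (2 * κ) δ ∧ cls κ δ = q ∧ g ∈ CC x R δ ∧
    y.2 = ops ms (g • w)}

/-- The subgroup generated by the values of the items of radius `R` and degree at least `D`. -/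
def BI {A : Type*} [AddCommGroup A] (β : V →+ V →+ A) (x : Fin k → G) (W : Set V)
    (κ R D : ℕ) : AddSubgroup A :=
  AddSubgroup.closure {a | ∃ q, ∃ y ∈ Itm x W κ R D q, a = β y.1 y.2}

end items

end Pool.Agent.Helper33.CW2
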