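import Pool.Agent.Helper33.CW2.Defs

/-!
# CW2: definitions for the E-lemma

Words `W : List (Fin k × Bool)` in the generators and their inverses (`true` = generator), letters
`(i, r) : Fin k × G` of a word, the kernels `kl`, `kap`.
-/

open scoped commutatorElement

namespace Pool.Agent.Helper33.CW2

open Pool.Agent.Helper26.CW

attribute [local instance] centerCommGroup

section

variable {G V A : Type*} [Group G] [AddCommGroup V] [DistribMulAction G V] [AddCommGroup A]
  {k : ℕ} (x : Fin k → G)

/-- The value of a word. -/
def ev : List (Fin k × Bool) → G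
  | [] => 1
  | (i, true) :: W => x i * ev W
  | (i, false) :: W => (x i)⁻¹ * ev W

/-- The letters of a word: `[w, u] = ∏ [xᵢ, (r u)^±1]` up to self terms. -/
def lets : List (Fin k × Bool) → List (Fin k × G)
  | [] => []
  | (i, true) :: W => (i, ev x W) :: lets W
  | (i, false) :: W => (i, (x i)⁻¹ * ev x W) :: lets W

/-- The self terms of the inverse letters. -/
def negs : List (Fin k × Bool) → List (G × G)
  | [] => []
  | (_, true) :: W => negs W
  | (i, false) :: W => ((x i)⁻¹ * ev x W, ev x W) :: negs W

/-- The interaction of two letters, as a list of pairs. -/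
def kl (p q : Fin k × G) : List (G × G) :=
  if q.1 < p.1 then
    [(x p.1 * p.2, x q.1 * q.2), (x p.1 * p.2, q.2), (p.2, x q.1 * q.2), (p.2, q.2)]
  else if q.1 = p.1 then [(p.2, x q.1 * q.2), (p.2, q.2)] else []

/-- The interaction of the letters of two lists. -/
def kll (P P' : List (Fin k × G)) : List (G × G) := P.flatMap fun p => P'.flatMap fun q => kl x p q

/-- The interactions of the pairs of letters of a list. -/
def klp : List (Fin k × G) → List (G × G)
  | [] => []
  | p :: P => (P.flatMap fun q => kl x p q) ++ klp P

/-- The collection cost of two letters `(i, v)`, `(j, v')`. -/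
def kap (β : V →+ V →+ A) (p q : Fin k × V) : A :=
  if q.1 < p.1 then β (x p.1 • p.2 - p.2) (x q.1 • q.2 - q.2)
  else if q.1 = p.1 then β p.2 (x q.1 • q.2 - q.2) else 0

/-- The collection cost of a list. -/
def kp (β : V →+ V →+ A) : List (Fin k × V) → A
  | [] => 0
  | p :: P => (P.map (kap x β p)).sum + kp β P

end

end Pool.Agent.Helper33.CW2
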