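import Pool.Agent.Helper33.CW2.Core

/-!
# CW2-Main: reduction to `[N, N]` central of exponent 2
-/

open scoped commutatorElement

namespace Pool.Agent.Helper33.CW2

open Pool.Agent.Helper26.CW Pool.Agent.Helper17.CW

universe u

lemma gam_comm_map {G K : Type u} [Group G] [Group K] (f : G →* K) (hf : Function.Surjective f)
    (n : ℕ) : (gam (commutator G) n).map f = gam (commutator K) n := by
  rw [gam_map, commutator_def, commutator_def, Subgroup.map_commutator,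
    Subgroup.map_top_of_surjective f hf]

lemma range_map_top {G K : Type u} [Group G] [Group K] (f : G →* K) (hf : Function.Surjective f)
    {k : ℕ} (x : Fin k → G) (hx : Subgroup.closure (Set.range x) = ⊤) :
    Subgroup.closure (Set.range (fun i => f (x i))) = ⊤ := by
  have h1 : Set.range (fun i => f (x i)) = f '' Set.range x := by
    rw [← Set.range_comp]; rfl
  rw [h1, ← MonoidHom.map_closure, hx, Subgroup.map_top_of_surjective f hf]

lemma ofFn_top {G : Type u} [Group G] {k : ℕ} (x : Fin k → G)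
    (hx : Subgroup.closure (Set.range x) = ⊤) :
    Subgroup.closure {y | y ∈ List.ofFn x} = ⊤ := by
  have h1 : {y | y ∈ List.ofFn x} = Set.range x := by
    ext y
    rw [Set.mem_ofPred_eq, List.mem_ofFn]
    rfl
  rw [h1, hx]

lemma SQ_map {G K : Type u} [Group G] [Group K] (f : G →* K) (N : Subgroup G) :
    (SQ N).map f = SQ (N.map f) := by
  unfold SQ
  rw [MonoidHom.map_closure]
  congr 1
  ext y
  constructor
  · rintro ⟨_, ⟨b, hb, rfl⟩, rfl⟩
    exact ⟨f b, ⟨b, hb, rfl⟩, map_pow f b 2⟩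
  · rintro ⟨_, ⟨b, hb, rfl⟩, rfl⟩
    exact ⟨b ^ 2, ⟨b, hb, rfl⟩, map_pow f b 2⟩

lemma comm_map_one {G K : Type u} [Group G] [Group K] (f : G →* K)
    (hf : Function.Surjective f) : (commutator G).map f = commutator K :=
  gam_comm_map f hf 0

lemma act_map {G K : Type u} [Group G] [Group K] (f : G →* K) (hf : Function.Surjective f)
    (N : Subgroup G) (m c a : ℕ) (hm : gam (commutator G) m ≤ N)
    (hcN : ∀ h ∈ gam (commutator G) c, ∀ n ∈ N, ⁅h, n⁆ ∈ SQ N)
    (ha : ∀ h ∈ commutator G, ∀ n ∈ N, ⁅h ^ (2 ^ a), n⁆ ∈ SQ N) :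
    gam (commutator K) m ≤ N.map f ∧
    (∀ h ∈ gam (commutator K) c, ∀ n ∈ N.map f, ⁅h, n⁆ ∈ SQ (N.map f)) ∧
    (∀ h ∈ commutator K, ∀ n ∈ N.map f, ⁅h ^ (2 ^ a), n⁆ ∈ SQ (N.map f)) := by
  refine ⟨?_, ?_, ?_⟩
  · rw [← gam_comm_map f hf]
    exact Subgroup.map_mono hm
  · rw [← gam_comm_map f hf]
    rintro _ ⟨h, hh, rfl⟩ _ ⟨n, hn, rfl⟩
    rw [← map_commutatorElement, ← SQ_map]
    exact ⟨_, hcN h hh n hn, rfl⟩
  · rw [← comm_map_one f hf]
    rintro _ ⟨h, hh, rfl⟩ _ ⟨n, hn, rfl⟩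
    rw [← map_pow, ← map_commutatorElement, ← SQ_map]
    exact ⟨_, ha h hh n hn, rfl⟩

/-- Reduction modulo squares, `[N, N]` central. -/
theorem red1 (k m c a : ℕ) {G : Type u} [Group G] (x : Fin k → G)
    (hx : Subgroup.closure (Set.range x) = ⊤) (N : Subgroup G) [hN : N.Normal]
    (hc : ∀ r ∈ N, ∀ s ∈ N, ⁅r, s⁆ ∈ Subgroup.center G)
    (hmN : gam (commutator G) m ≤ N)
    (hcN : ∀ h ∈ gam (commutator G) c, ∀ n ∈ N, ⁅h, n⁆ ∈ SQ N)
    (ha : ∀ h ∈ commutator G, ∀ n ∈ N, ⁅h ^ (2 ^ a), n⁆ ∈ SQ N) {z : G}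
    (hz : z ∈ ⁅gam (commutator G) (m + 1), gam (commutator G) (m + 1)⁆) :
    IsProdComm ((k * (c * (c + 1) / 2) + 1) * (5 ^ k * k) + 2 * k) z := by
  have hNc : ⁅N, N⁆ ≤ Subgroup.center G := Subgroup.commutator_le.2 hc
  -- the subgroup of squares
  let B : Subgroup G :=
    { carrier := {y | ∃ b ∈ ⁅N, N⁆, y = b ^ 2}
      mul_mem' := by
        rintro _ _ ⟨b, hb, rfl⟩ ⟨d, hd, rfl⟩
        refine ⟨b * d, mul_mem hb hd, ?_⟩
        have h1 : Commute b d := (Subgroup.mem_center_iff.1 (hNc hd) b)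
        exact (h1.mul_pow 2).symm
      one_mem' := ⟨1, one_mem _, by simp⟩
      inv_mem' := by
        rintro _ ⟨b, hb, rfl⟩
        exact ⟨b⁻¹, inv_mem hb, by simp⟩ }
  have hBN : B.Normal := by
    constructor
    rintro _ ⟨b, hb, rfl⟩ g
    refine ⟨b, hb, ?_⟩
    have h1 : g * b = b * g := Subgroup.mem_center_iff.1 (hNc hb) g
    have h2 : g * b ^ 2 = b ^ 2 * g := (Commute.pow_right (show Commute g b from h1) 2)
    rw [h2, mul_inv_cancel_right]
  have hsur := QuotientGroup.mk'_surjective B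
  have hN' : (N.map (QuotientGroup.mk' B)).Normal := hN.map _ hsur
  obtain ⟨e1, e2, e3⟩ := act_map (QuotientGroup.mk' B) hsur N m c a hmN hcN ha
  have h1 := core k m c a (fun i => QuotientGroup.mk' B (x i)) (range_map_top _ hsur x hx)
    (N.map (QuotientGroup.mk' B)) ?_ ?_ e1 e2 e3 (z := QuotientGroup.mk' B z) ?_
  · obtain ⟨p, b, hp, ⟨y, hy, rfl⟩, rfl⟩ := exists_of_quotient B h1
    refine hp.mul ?_
    have h2 := isProdComm_sq N hc (List.ofFn x) (ofFn_top x hx) hy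
    rwa [List.length_ofFn] at h2
  · rintro _ ⟨r, hr, rfl⟩ _ ⟨s, hs, rfl⟩
    rw [← map_commutatorElement, Subgroup.mem_center_iff]
    intro g
    obtain ⟨g, rfl⟩ := hsur g
    rw [← map_mul, ← map_mul, Subgroup.mem_center_iff.1 (hc r hr s hs) g]
  · rintro _ ⟨r, hr, rfl⟩ _ ⟨s, hs, rfl⟩
    rw [← map_commutatorElement, ← map_pow]
    exact (QuotientGroup.eq_one_iff _).2
      ⟨⁅r, s⁆, Subgroup.commutator_mem_commutator hr hs, rfl⟩
  · rw [← gam_comm_map _ hsur, ← Subgroup.map_commutator]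
    exact ⟨z, hz, rfl⟩

theorem main (k m c a : ℕ) {G : Type u} [Group G] (x : Fin k → G)
    (hx : Subgroup.closure (Set.range x) = ⊤) (N : Subgroup G) [hN : N.Normal]
    (hNN : ⁅⁅N, N⁆, ⁅N, N⁆⁆ = ⊥) (hmN : gam (commutator G) m ≤ N)
    (hcN : ∀ h ∈ gam (commutator G) c, ∀ n ∈ N, ⁅h, n⁆ ∈ SQ N)
    (ha : ∀ h ∈ commutator G, ∀ n ∈ N, ⁅h ^ (2 ^ a), n⁆ ∈ SQ N)
    {g : G} (hg : g ∈ commutator G) :
    IsProdComm (k ^ 2 + 5 * k + (k * (c * (c + 1) / 2) + 1) * (k * 5 ^ k)) g := by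
  have hlen : (List.ofFn x).length = k := List.length_ofFn
  have hgen := ofFn_top x hx
  have hKn : (gam (commutator G) (m + 1)).Normal := gam_normal _ _
  obtain ⟨A, hA⟩ : ∃ A : Subgroup G, A = ⁅gam (commutator G) (m + 1), gam (commutator G) (m + 1)⁆ :=
    ⟨_, rfl⟩
  have hAn : A.Normal := by rw [hA]; infer_instance
  have hsurA := QuotientGroup.mk'_surjective A
  have h1 := width_ana (G := G ⧸ A) ((List.ofFn x).map (QuotientGroup.mk' A))
    (closure_map_top _ hsurA _ hgen) (m + 1) ?_ (g := QuotientGroup.mk' A g) ?_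
  · rw [List.length_map, hlen] at h1
    obtain ⟨p, z, hp, hz, rfl⟩ := exists_of_quotient A h1
    rw [hA] at hz
    have h2 : IsProdComm (((k * (c * (c + 1) / 2) + 1) * (5 ^ k * k) + 2 * k) +
        (List.ofFn x).length) z := by
      refine lift_center ⁅N, N⁆ (comm_of_commutator_eq_bot hNN) (List.ofFn x) hgen ?_
      have hsur := QuotientGroup.mk'_surjective ⁅⁅N, N⁆, (⊤ : Subgroup G)⁆
      have hN' : (N.map (QuotientGroup.mk' ⁅⁅N, N⁆, (⊤ : Subgroup G)⁆)).Normal := hN.map _ hsur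
      obtain ⟨e1, e2, e3⟩ := act_map _ hsur N m c a hmN hcN ha
      refine red1 k m c a (fun i => QuotientGroup.mk' ⁅⁅N, N⁆, (⊤ : Subgroup G)⁆ (x i))
        (range_map_top _ hsur x hx) (N.map (QuotientGroup.mk' ⁅⁅N, N⁆, (⊤ : Subgroup G)⁆))
        ?_ e1 e2 e3 ?_
      · rintro _ ⟨r, hr, rfl⟩ _ ⟨s, hs, rfl⟩
        rw [← map_commutatorElement]
        exact mk_central _ (Subgroup.commutator_mem_commutator hr hs)
      · rw [← gam_comm_map _ hsur, ← Subgroup.map_commutator]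
        exact ⟨z, hz, rfl⟩
    refine (hp.mul h2).mono (le_of_eq ?_)
    rw [hlen]
    ring
  · rw [derivedSeries_one (G ⧸ A),
      ← gam_comm_map _ hsurA, ← Subgroup.map_commutator, ← hA, QuotientGroup.map_mk'_self]
  · rw [derivedSeries_one (G ⧸ A)]
    have h2 := gam_comm_map (QuotientGroup.mk' A) hsurA 0
    change (commutator G).map _ = commutator (G ⧸ A) at h2
    rw [← h2]
    exact ⟨g, hg, rfl⟩

end Pool.Agent.Helper33.CW2
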