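import Pool.Agent.Helper33.CW2.Defs

/-!
# CW2: the operators `(m₁ - 1) ⋯ (m_D - 1)`
-/

namespace Pool.Agent.Helper33.CW2

variable {G V A : Type*} [Group G] [AddCommGroup V] [DistribMulAction G V] [AddCommGroup A]

lemma ops_append (a b : List G) (v : V) : ops (a ++ b) v = ops a (ops b v) := by
  induction a with
  | nil => rfl
  | cons m a ih => rw [List.cons_append, ops_cons, ops_cons, ih]

lemma ops_zero (ms : List G) : ops ms (0 : V) = 0 := by
  induction ms with
  | nil => rfl
  | cons m a ih => rw [ops_cons, ih, smul_zero, sub_zero]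

lemma ops_add (ms : List G) (u v : V) : ops ms (u + v) = ops ms u + ops ms v := by
  induction ms with
  | nil => rfl
  | cons m a ih => rw [ops_cons, ops_cons, ops_cons, ih, smul_add]; abel

lemma smul_ops (g : G) (ms : List G) (v : V) :
    g • ops ms v = ops (ms.map fun m => g * m * g⁻¹) (g • v) := by
  induction ms with
  | nil => rfl
  | cons m a ih =>
    rw [ops_cons, List.map_cons, ops_cons, ← ih, smul_sub, smul_smul, smul_smul,
      inv_mul_cancel_right]

lemma ops_adj (β : V →+ V →+ A) (hinv : ∀ (g : G) (u v : V), β (g • u) (g • v) = β u v)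
    (ms : List G) (u v : V) :
    β u (ops ms v) = β (ops ((ms.map fun m => m⁻¹).reverse) u) v := by
  induction ms generalizing u with
  | nil => rfl
  | cons m a ih =>
    have h1 : β u (m • ops a v) = β (m⁻¹ • u) (ops a v) := by
      rw [← hinv m (m⁻¹ • u) (ops a v), smul_smul, mul_inv_cancel, one_smul]
    rw [ops_cons, map_sub, h1, ← AddMonoidHom.sub_apply, ← map_sub, ih, List.map_cons,
      List.reverse_cons, ops_append, ops_cons, ops_nil]

/-- The merging identity. -/
lemma merge_id (β : V →+ V →+ A) (hsym : ∀ u v : V, β u v = β v u)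
    (hinv : ∀ (g : G) (u v : V), β (g • u) (g • v) = β u v) (r r' g h : G) (ms ns : List G)
    (w w' : V) :
    β (r • ops ms (g • w)) (r' • ops ns (h • w')) =
      β w' (ops (((ns.map fun m => m⁻¹).reverse ++
        ms.map fun m => (r'⁻¹ * r) * m * (r'⁻¹ * r)⁻¹).map fun m => h⁻¹ * m * h⁻¹⁻¹)
        ((h⁻¹ * (r'⁻¹ * r * g)) • w)) := by
  have h1 : β (r • ops ms (g • w)) (r' • ops ns (h • w')) =
      β ((r'⁻¹ * r) • ops ms (g • w)) (ops ns (h • w')) := by
    rw [← hinv r'⁻¹ (r • ops ms (g • w)) (r' • ops ns (h • w')), smul_smul, smul_smul,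
      inv_mul_cancel, one_smul]
  rw [h1, ops_adj β hinv ns, smul_ops, ← ops_append, smul_smul]
  rw [← hinv h⁻¹ _ (h • w'), smul_smul h⁻¹ h w', inv_mul_cancel, one_smul, smul_ops, smul_smul,
    hsym]

end Pool.Agent.Helper33.CW2
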