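import Pool.Agent.Helper33.CW2.TB
import Pool.Agent.Helper33.CW2.Ops

/-!
# CW2-Merge: two items of the same class merge into one item

PLAN. `Itm x W κ R D q` is defined in `Defs.lean`. Let `y = (w₁, ops ms (g • w))`,
`z = (w₂, ops ns (h • w'))` be items of the same class `q` (displacements `δ, δ'`, both in the box of
radius `2κ`, `cls κ δ = cls κ δ'`), `(r, r')` a pair of elements with `χ = r'⁻¹ * r ∈ CC x lam ε`,
`bx κ ε`, `lam ≤ R`. By `merge_id` (proved in `Ops.lean`)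
`β (r • y.2) (r' • z.2) = β w' (ops (L.map (conj by h⁻¹)) ((h⁻¹ * (χ * g)) • w))`,
`L = (ns.map inv).reverse ++ ms.map (conj by χ)`: again an item:
* `w' ∈ W`; length: `ns.length + ms.length ≥ D' + D`;
* contents: inverses stay in `TT x R`; `χ m χ⁻¹ ∈ TT x (R + κ + 1)` (`conj_TT`, `χ ∈ CC x R ε` by
  `CC_mono`); `h⁻¹ ∈ CC x (R + 2 * (2κ) + 1) (-δ')` (`inv_CC`), so `h⁻¹ m h⁻¹⁻¹ ∈
  TT x (R + 4κ + 1 + 2κ + 1)` (`conj_TT`, enlarge with `TT_mono`; here `κ ≤ 4κ`), `≤ R + 16κ` because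
  `1 ≤ κ`;
* `χ * g ∈ CC x (R + 4κ + 1) (ε + δ)` (`mul_CC` with `D = 2κ`), `h⁻¹ * (χ * g) ∈
  CC x (R + 4κ + 1 + 2 * (3κ) + 1) (-δ' + (ε + δ))` (`mul_CC` with `D = 3κ`), `≤ R + 16κ`;
* displacement `δ'' = -δ' + (ε + δ)`: `bx κ (δ - δ')` by `cls_sub`, so `bx (2κ) δ''`.
`cls_sub`: `δ i + 2κ, δ' i + 2κ ∈ [0, 4κ]`, the quotients by `κ` are in `[0, 4]`, so `toNat % 5` loses
nothing and they are equal; `Int.ediv_add_emod`/`Int.emod_lt_of_pos`: `|δ i - δ' i| < κ`.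
-/

namespace Pool.Agent.Helper33.CW2

variable {G V A : Type*} [Group G] [AddCommGroup V] [DistribMulAction G V] [AddCommGroup A]
  {k : ℕ} (x : Fin k → G)

private lemma quot_aux (a b κ : ℤ) (hκ : 1 ≤ κ) (ha0 : 0 ≤ a) (ha : a ≤ 4 * κ) (hb0 : 0 ≤ b)
    (hb : b ≤ 4 * κ) (h : (a / κ).toNat % 5 = (b / κ).toNat % 5) : |a - b| ≤ κ := by
  have hk : 0 < κ := by linarith
  have h1 : 0 ≤ a / κ := Int.ediv_nonneg ha0 hk.le
  have h2 : 0 ≤ b / κ := Int.ediv_nonneg hb0 hk.le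
  have h3 : a / κ < 5 := by
    rw [Int.ediv_lt_iff_lt_mul hk]
    linarith
  have h4 : b / κ < 5 := by
    rw [Int.ediv_lt_iff_lt_mul hk]
    linarith
  have h5 : a / κ = b / κ := by omega
  have h6 := Int.mul_ediv_add_emod a κ
  have h7 := Int.mul_ediv_add_emod b κ
  have h8 := Int.emod_nonneg a hk.ne'
  have h9 := Int.emod_nonneg b hk.ne'
  have h10 := Int.emod_lt_of_pos a hk
  have h11 := Int.emod_lt_of_pos b hk
  rw [h5] at h6
  rw [abs_le]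
  constructor
  · linarith
  · linarith

theorem cls_sub {κ : ℕ} (hκ : 1 ≤ κ) {δ δ' : Fin k → ℤ} (hδ : bx (2 * κ) δ)
    (hδ' : bx (2 * κ) δ') (h : cls κ δ = cls κ δ') : bx κ (δ - δ') := by
  intro i
  have h1 : (cls κ δ i).1 = (cls κ δ' i).1 := by rw [h]
  have h2 := abs_le.1 (hδ i)
  have h3 := abs_le.1 (hδ' i)
  push_cast at h2 h3
  have h4 := quot_aux (δ i + 2 * κ) (δ' i + 2 * κ) κ (by exact_mod_cast hκ) (by linarith)
    (by linarith) (by linarith) (by linarith) h1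
  have h5 : δ i + 2 * κ - (δ' i + 2 * κ) = (δ - δ') i := by
    rw [Pi.sub_apply]
    ring
  rw [h5] at h4
  exact h4

theorem merge_items (β : V →+ V →+ A) (hsym : ∀ u v : V, β u v = β v u)
    (hinv : ∀ (g : G) (u v : V), β (g • u) (g • v) = β u v) {W : Set V} {κ R D D' : ℕ}
    (hκ : 1 ≤ κ) {q : Fin k → Fin 5} {y z : V × V} (hy : y ∈ Itm x W κ R D q)
    (hz : z ∈ Itm x W κ R D' q) {r r' : G} {ε : Fin k → ℤ} (hε : bx κ ε)
    (hr : r'⁻¹ * r ∈ CC x R ε) :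
    ∃ q', ∃ u ∈ Itm x W κ (R + 16 * κ) (D + D') q', β (r • y.2) (r' • z.2) = β u.1 u.2 := by
  obtain ⟨_, ms, δ, g, w, hw, hlm, hms, hδ, hq, hg, hy2⟩ := hy
  obtain ⟨_, ns, δ', h, w', hw', hln, hns, hδ', hq', hh, hz2⟩ := hz
  have hinvh : h⁻¹ ∈ CC x (R + 2 * (2 * κ) + 1) (-δ') := inv_CC x hδ' hh
  have hε2 : bx (2 * κ) ε := bx_mono (by omega) hε
  have hmul1 : r'⁻¹ * r * g ∈ CC x (R + 2 * (2 * κ) + 1) (ε + δ) := mul_CC x hε2 hδ hr hg
  have hb1 : bx (3 * κ) (ε + δ) := bx_mono (by omega) (bx_add hε hδ)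
  have hb2 : bx (3 * κ) (-δ') := bx_mono (by omega) (bx_neg hδ')
  have hmul2 : h⁻¹ * (r'⁻¹ * r * g) ∈ CC x (R + 2 * (2 * κ) + 1 + 2 * (3 * κ) + 1)
      (-δ' + (ε + δ)) := mul_CC x hb2 hb1 hinvh hmul1
  have hb3 : bx (2 * κ) (-δ' + (ε + δ)) := by
    have e : -δ' + (ε + δ) = ε + (δ - δ') := by abel
    rw [e]
    exact bx_mono (by omega) (bx_add hε (cls_sub hκ hδ hδ' (hq.trans hq'.symm)))
  refine ⟨cls κ (-δ' + (ε + δ)), (w', ops (((ns.map fun m => m⁻¹).reverse ++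
        ms.map fun m => (r'⁻¹ * r) * m * (r'⁻¹ * r)⁻¹).map fun m => h⁻¹ * m * h⁻¹⁻¹)
        ((h⁻¹ * (r'⁻¹ * r * g)) • w)), ⟨hw', ?_⟩, ?_⟩
  · refine ⟨_, _, _, _, hw, ?_, ?_, hb3, rfl, CC_mono x (by omega) hmul2, rfl⟩
    · rw [List.length_map, List.length_append, List.length_reverse, List.length_map,
        List.length_map]
      omega
    · intro m hm
      rw [List.mem_map] at hm
      obtain ⟨a, ha, rfl⟩ := hm
      have hbt : bx (2 * κ) (-δ') := bx_neg hδ'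
      refine TT_mono x (by omega) (conj_TT x hbt hinvh
        (?_ : a ∈ TT x (R + 2 * (2 * κ) + 1)))
      rw [List.mem_append, List.mem_reverse, List.mem_map, List.mem_map] at ha
      rcases ha with ⟨b, hb, rfl⟩ | ⟨b, hb, rfl⟩
      · exact TT_mono x (by omega) (Subgroup.inv_mem _ (hns b hb))
      · exact TT_mono x (by omega) (conj_TT x hε hr (hms b hb))
  · rw [hy2, hz2]
    exact merge_id β hsym hinv r r' g h ms ns w w'

lemma Itm_mono {W W' : Set V} {κ R R' D D' : ℕ} {q : Fin k → Fin 5} (hW : W ⊆ W') (hR : R ≤ R')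
    (hD : D' ≤ D) : Itm x W κ R D q ⊆ Itm x W' κ R' D' q := by
  rintro y ⟨h1, ms, δ, g, w, hw, hl, hm, hδ, hq, hg, hy⟩
  exact ⟨hW h1, ms, δ, g, w, hW hw, hD.trans hl, fun m hm' => TT_mono x hR (hm m hm'), hδ, hq,
    CC_mono x hR hg, hy⟩

lemma BI_mono (β : V →+ V →+ A) {W W' : Set V} {κ R R' D D' : ℕ} (hW : W ⊆ W') (hR : R ≤ R')
    (hD : D' ≤ D) : BI β x W κ R D ≤ BI β x W' κ R' D' := by
  refine AddSubgroup.closure_mono ?_
  rintro a ⟨q, y, hy, ha⟩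
  exact ⟨q, y, Itm_mono x hW hR hD hy, ha⟩

end Pool.Agent.Helper33.CW2
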