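import Pool.Agent.Helper33.CW2.Defs

/-!
# CW2-NilG: generators of the terms of the lower central series

`gam H 0 = H`, `gam H (c+1) = ⁅gam H c, H⁆`.
PLAN. Induction on `c`. `c = 0`: `z = t` (`n ^ (0 + 1) = n`: `finCongr`). Step: let `z` be the generators
for `c`, and let `w (i, j) = ⁅z i, t j⁆` for `(i, j) ∈ Fin (n ^ (c+1)) × Fin n ≃ Fin (n ^ (c+2))`
(`finProdFinEquiv`, `pow_succ`). Let `M = Subgroup.closure (Set.range w) ⊔ gam ⊤ (c + 2)`. It suffices: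
`⁅a, b⁆ ∈ M` for `a ∈ gam ⊤ (c+1-th generators)`: `gam ⊤ (c+1) = ⁅gam ⊤ c, ⊤⁆` is the closure of the
commutators `⁅a, b⁆`, `a ∈ gam ⊤ c`. Modulo the normal subgroup `gam ⊤ (c+2) = ⁅gam ⊤ (c+1), ⊤⁆` every
`⁅a, b⁆` (`a ∈ gam ⊤ c`) is central, so `⁅a a', b⁆ ≡ ⁅a, b⁆ ⁅a', b⁆`, `⁅a, b b'⁆ ≡ ⁅a, b⁆ ⁅a, b'⁆`,
`⁅a⁻¹, b⁆ ≡ ⁅a, b⁆⁻¹`, `⁅a, b⁻¹⁆ ≡ ⁅a, b⁆⁻¹`, and `⁅a, b⁆ ∈ gam ⊤ (c+2)` for `a ∈ gam ⊤ (c+1)`. Easiest:
work in the quotient `T ⧸ gam ⊤ (c+2)` where `⁅a, b⁆ ∈ center`; or directly with elements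
(`⁅a * a', b⁆ = a * ⁅a', b⁆ * a⁻¹ * ⁅a, b⁆ = ⁅a, ⁅a', b⁆⁆ * ⁅a', b⁆ * ⁅a, b⁆`). First `b = t j` fixed:
`{a ∈ gam ⊤ c | ⁅a, t j⁆ ∈ M}` is a subgroup containing `z i` and `gam ⊤ (c+1)`, so it is `gam ⊤ c`. Then
`{b | ∀ a ∈ gam ⊤ c, ⁅a, b⁆ ∈ M}` is a subgroup containing the `t j`, so it is `⊤`. (`M` need not be
normal; `⁅m, b⁆ ∈ gam ⊤ (c+2) ≤ M` for `m ∈ gam ⊤ (c+1)`, so conjugation by `b` maps `M ∩ gam ⊤ (c+1)`
to `M`. All subgroups `gam ⊤ j` are normal: `gam_normal`.)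
-/

open scoped commutatorElement

namespace Pool.Agent.Helper33.CW2

open Pool.Agent.Helper17.CW

universe u

private lemma comm_flip {T : Type u} [Group T] (c : ℕ) {m : T}
    (hm : m ∈ gam (⊤ : Subgroup T) (c + 1)) (a : T) : ⁅a, m⁆ ∈ gam (⊤ : Subgroup T) (c + 2) := by
  have h1 : ⁅m, a⁆ ∈ gam (⊤ : Subgroup T) (c + 2) :=
    Subgroup.commutator_mem_commutator hm (Subgroup.mem_top a)
  have h2 := (gam (⊤ : Subgroup T) (c + 2)).inv_mem h1
  rwa [commutatorElement_inv] at h2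

private lemma gam_step {T : Type u} [Group T] {n : ℕ} (t : Fin n → T)
    (ht : Subgroup.closure (Set.range t) = ⊤) (c : ℕ) {ι : Type} (z : ι → T)
    (hz : ∀ i, z i ∈ gam (⊤ : Subgroup T) c)
    (hc : gam (⊤ : Subgroup T) c ≤ Subgroup.closure (Set.range z) ⊔ gam (⊤ : Subgroup T) (c + 1))
    (M : Subgroup T) (hM : gam (⊤ : Subgroup T) (c + 2) ≤ M)
    (hzt : ∀ i j, ⁅z i, t j⁆ ∈ M) :
    gam (⊤ : Subgroup T) (c + 1) ≤ M := by
  have hn := gam_normal (⊤ : Subgroup T) c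
  have hcm : ∀ a ∈ gam (⊤ : Subgroup T) c, ∀ b : T, ⁅a, b⁆ ∈ gam (⊤ : Subgroup T) (c + 1) :=
    fun a ha b => Subgroup.commutator_mem_commutator ha (Subgroup.mem_top b)
  have key1 : ∀ j, ∀ a ∈ gam (⊤ : Subgroup T) c, ⁅a, t j⁆ ∈ M := by
    intro j
    let S : Subgroup T :=
      { carrier := {a | a ∈ gam (⊤ : Subgroup T) c ∧ ⁅a, t j⁆ ∈ M}
        mul_mem' := by
          rintro a a' ⟨ha, ha2⟩ ⟨hb, hb2⟩
          refine ⟨mul_mem ha hb, ?_⟩
          have e : ⁅a * a', t j⁆ = ⁅a, ⁅a', t j⁆⁆ * ⁅a', t j⁆ * ⁅a, t j⁆ := by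
            simp only [commutatorElement_def]
            group
          rw [e]
          exact mul_mem (mul_mem (hM (comm_flip c (hcm a' hb _) a)) hb2) ha2
        one_mem' := ⟨one_mem _, by simp⟩
        inv_mem' := by
          rintro a ⟨ha, ha2⟩
          refine ⟨inv_mem ha, ?_⟩
          have e : ⁅a⁻¹, t j⁆ = ⁅a⁻¹, ⁅a, t j⁆⁻¹⁆ * ⁅a, t j⁆⁻¹ := by
            simp only [commutatorElement_def]
            group
          rw [e]
          exact mul_mem (hM (comm_flip c (inv_mem (hcm a ha _)) _)) (inv_mem ha2) }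
    have hS : gam (⊤ : Subgroup T) c ≤ S := by
      refine hc.trans (sup_le ((Subgroup.closure_le _).2 ?_) ?_)
      · rintro _ ⟨i, rfl⟩
        exact ⟨hz i, hzt i j⟩
      · intro a ha
        exact ⟨Subgroup.commutator_le_left _ _ ha,
          hM (Subgroup.commutator_mem_commutator ha (Subgroup.mem_top _))⟩
    intro a ha
    exact (hS ha).2
  have key2 : ∀ b : T, ∀ a ∈ gam (⊤ : Subgroup T) c, ⁅a, b⁆ ∈ M := by
    let S : Subgroup T :=
      { carrier := {b | ∀ a ∈ gam (⊤ : Subgroup T) c, ⁅a, b⁆ ∈ M}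
        mul_mem' := by
          intro b b' hb hb' a ha
          have e : ⁅a, b * b'⁆ = ⁅a, b⁆ * (⁅b, ⁅a, b'⁆⁆ * ⁅a, b'⁆) := by
            simp only [commutatorElement_def]
            group
          rw [e]
          exact mul_mem (hb a ha) (mul_mem (hM (comm_flip c (hcm a ha _) b)) (hb' a ha))
        one_mem' := by
          intro a _
          simp
        inv_mem' := by
          intro b hb a ha
          have e : ⁅a, b⁻¹⁆ = ⁅b⁻¹, ⁅a, b⁆⁻¹⁆ * ⁅a, b⁆⁻¹ := by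
            simp only [commutatorElement_def]
            group
          rw [e]
          exact mul_mem (hM (comm_flip c (inv_mem (hcm a ha _)) _)) (inv_mem (hb a ha)) }
    have hS : (⊤ : Subgroup T) ≤ S := by
      rw [← ht, Subgroup.closure_le]
      rintro _ ⟨j, rfl⟩
      exact key1 j
    intro b
    exact hS (Subgroup.mem_top b)
  change ⁅gam (⊤ : Subgroup T) c, (⊤ : Subgroup T)⁆ ≤ M
  rw [Subgroup.commutator_le]
  intro a ha b _
  exact key2 b a ha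

theorem gam_gen {T : Type u} [Group T] {n : ℕ} (t : Fin n → T)
    (ht : Subgroup.closure (Set.range t) = ⊤) (c : ℕ) :
    ∃ z : Fin (n ^ (c + 1)) → T, (∀ i, z i ∈ gam (⊤ : Subgroup T) c) ∧
      gam (⊤ : Subgroup T) c ≤ Subgroup.closure (Set.range z) ⊔ gam (⊤ : Subgroup T) (c + 1) := by
  induction c with
  | zero =>
    refine ⟨fun i => t (finCongr (by simp) i), fun i => Subgroup.mem_top _, ?_⟩
    have hr : Set.range (fun i : Fin (n ^ (0 + 1)) => t (finCongr (by simp) i)) = Set.range t :=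
      (finCongr (by simp : n ^ (0 + 1) = n)).surjective.range_comp t
    rw [hr, ht]
    exact le_sup_of_le_left le_top
  | succ c ih =>
    obtain ⟨z, hz, hc⟩ := ih
    let e : Fin (n ^ (c + 1 + 1)) ≃ Fin (n ^ (c + 1)) × Fin n :=
      (finCongr (pow_succ n (c + 1))).trans finProdFinEquiv.symm
    refine ⟨fun k => ⁅z (e k).1, t (e k).2⁆, fun k =>
      Subgroup.commutator_mem_commutator (hz _) (Subgroup.mem_top _), ?_⟩
    refine gam_step t ht c z hz hc _ le_sup_right ?_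
    intro i j
    refine Subgroup.mem_sup_left (Subgroup.subset_closure ⟨e.symm (i, j), ?_⟩)
    simp

end Pool.Agent.Helper33.CW2
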