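import Pool.Agent.Helper33.CW2.TC
import Pool.Agent.Helper33.CW2.Ops
import Pool.Agent.Helper33.CW2.Merge

/-!
# CW2-Start: the start of the rounds

PLAN. `start0`: `K = gam (commutator G) (c+1) = ⁅gam (commutator G) c, commutator G⁆ ≤ N`. Let
`Z = {a : Additive center}` be the closure in the statement, `MV = {v : V | ∀ w, β w v ∈ Z}` — an
additive subgroup of `V` which is stable under `G` (`β w (g • v) = β (g⁻¹ • w) v`). For `b ∈ K` (as an
element of `N`), `π b ∈ MV`: closure induction for `b ∈ ⁅gam (commutator G) c, commutator G⁆`; for a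
generator `⁅v', h⁆`, `v' ∈ N`: `⁅v', h⁆ = v' * (h v'⁻¹ h⁻¹)`, so `π = π v' + h • π v'⁻¹ =
π v' - h • π v'` and `β w (h • v - v) ∈ Z`. Then for `z ∈ ⁅K, K⁆`, closure induction: a generator
`⁅a, b⁆` is `om N hc a b = β (π a) (π b) ∈ Z`.
`start1`: closure induction for `ζ`; a generator `β w (h • v - v)` is the value of the item
`(w, ops [h] ((1 : G) • v))` with displacement `0` (`1 ∈ CC x R 0`: `CC_zero`), `h ∈ TT x R` for some `R`
(`exists_TT`), `W = {w, v}`; sums: union of the `W`, maximum of the `R` (`BI_mono`).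
`exists_lam`: the set of all `p.2⁻¹ * p.1`, `p ∈ E w w'`, `w, w' ∈ W`, or `p ∈ S w`, is finite; every
element is in some `CC x R δ` (`exists_CC`), `bx D δ` for some `D` (`exists_bx`); take the maxima
(`CC_mono`, `bx_mono`).
-/

open scoped commutatorElement

namespace Pool.Agent.Helper33.CW2

open Pool.Agent.Helper26.CW Pool.Agent.Helper17.CW

attribute [local instance] centerCommGroup

universe u

private theorem pi_one {G V : Type u} [Group G] [AddCommGroup V] (N : Subgroup G) (π : N → V)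
    (hπ : ∀ a b, π (a * b) = π a + π b) : π 1 = 0 := by
  have h := hπ 1 1
  rw [mul_one] at h
  exact left_eq_add.1 h

private theorem pi_inv {G V : Type u} [Group G] [AddCommGroup V] (N : Subgroup G) (π : N → V)
    (hπ : ∀ a b, π (a * b) = π a + π b) (a : N) : π a⁻¹ = - π a := by
  have h := hπ a⁻¹ a
  rw [inv_mul_cancel, pi_one N π hπ] at h
  exact eq_neg_of_add_eq_zero_left h.symm

theorem start0 {G V : Type u} [Group G] [AddCommGroup V] [DistribMulAction G V]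
    (N : Subgroup G) [hN : N.Normal] (c : ℕ) (hcN : gam (commutator G) c ≤ N)
    (hc : ∀ r ∈ N, ∀ s ∈ N, ⁅r, s⁆ ∈ Subgroup.center G) (π : N → V)
    (β : V →+ V →+ Additive (Subgroup.center G)) (hπ : ∀ a b, π (a * b) = π a + π b)
    (hcj : ∀ (g : G) a, π (cj N g a) = g • π a)
    (hinv : ∀ (g : G) (u v : V), β (g • u) (g • v) = β u v)
    (hβ : ∀ a b, β (π a) (π b) = om N hc a b) {z : G}
    (hz : z ∈ ⁅gam (commutator G) (c + 1), gam (commutator G) (c + 1)⁆) :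
    ∃ ζ ∈ AddSubgroup.closure {a | ∃ w v : V, ∃ h ∈ commutator G, a = β w (h • v - v)},
      z = ((Additive.toMul ζ : Subgroup.center G) : G) := by
  obtain ⟨Z, hZ⟩ : ∃ Z : AddSubgroup (Additive (Subgroup.center G)),
    Z = AddSubgroup.closure {a | ∃ w v : V, ∃ h ∈ commutator G, a = β w (h • v - v)} := ⟨_, rfl⟩
  rw [← hZ]
  have hgen : ∀ w v : V, ∀ h ∈ commutator G, β w (h • v - v) ∈ Z := by
    intro w v h hh
    rw [hZ]
    exact AddSubgroup.subset_closure ⟨w, v, h, hh, rfl⟩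
  have hK : ∀ b ∈ gam (commutator G) (c + 1), ∃ hb : b ∈ N, ∀ w, β w (π ⟨b, hb⟩) ∈ Z := by
    intro b hb
    rw [gam_succ, Subgroup.commutator_def] at hb
    induction hb using Subgroup.closure_induction with
    | mem b hb =>
      obtain ⟨v', hv', h, hh, rfl⟩ := hb
      have hv : v' ∈ N := hcN hv'
      have h1 : ⁅v', h⁆ = ((⟨v', hv⟩ * cj N h (⟨v', hv⟩ : N)⁻¹ : N) : G) := by
        simp only [commutatorElement_def, cj, Subgroup.coe_mul, Subgroup.coe_inv]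
        group
      have h2 : ⁅v', h⁆ ∈ N := by rw [h1]; exact SetLike.coe_mem _
      refine ⟨h2, ?_⟩
      intro w
      have h3 : (⟨⁅v', h⁆, h2⟩ : N) = ⟨v', hv⟩ * cj N h (⟨v', hv⟩ : N)⁻¹ := Subtype.ext h1
      rw [h3, hπ, hcj, pi_inv N π hπ, smul_neg,
        show π ⟨v', hv⟩ + -(h • π ⟨v', hv⟩) = -(h • π ⟨v', hv⟩ - π ⟨v', hv⟩) by abel, map_neg]
      exact Z.neg_mem (hgen _ _ _ hh)
    | one =>
      refine ⟨N.one_mem, fun w => ?_⟩
      have : π ⟨1, N.one_mem⟩ = 0 := pi_one N π hπ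
      rw [this, map_zero]
      exact Z.zero_mem
    | mul a b _ _ iha ihb =>
      obtain ⟨ha, ha'⟩ := iha
      obtain ⟨hb, hb'⟩ := ihb
      refine ⟨N.mul_mem ha hb, fun w => ?_⟩
      have : π ⟨a * b, N.mul_mem ha hb⟩ = π ⟨a, ha⟩ + π ⟨b, hb⟩ := hπ ⟨a, ha⟩ ⟨b, hb⟩
      rw [this, map_add]
      exact Z.add_mem (ha' w) (hb' w)
    | inv a _ iha =>
      obtain ⟨ha, ha'⟩ := iha
      refine ⟨N.inv_mem ha, fun w => ?_⟩
      have : π ⟨a⁻¹, N.inv_mem ha⟩ = -π ⟨a, ha⟩ := pi_inv N π hπ ⟨a, ha⟩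
      rw [this, map_neg]
      exact Z.neg_mem (ha' w)
  rw [Subgroup.commutator_def] at hz
  induction hz using Subgroup.closure_induction with
  | mem z hz =>
    obtain ⟨a, ha, b, hb, rfl⟩ := hz
    obtain ⟨ha1, _⟩ := hK a ha
    obtain ⟨hb1, hb2⟩ := hK b hb
    refine ⟨om N hc ⟨a, ha1⟩ ⟨b, hb1⟩, ?_, rfl⟩
    rw [← hβ]
    exact hb2 _
  | one => exact ⟨0, Z.zero_mem, rfl⟩
  | mul a b _ _ iha ihb =>
    obtain ⟨ζ, h1, h2⟩ := iha
    obtain ⟨ζ', h3, h4⟩ := ihb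
    refine ⟨ζ + ζ', Z.add_mem h1 h3, ?_⟩
    rw [h2, h4]
    rfl
  | inv a _ iha =>
    obtain ⟨ζ, h1, h2⟩ := iha
    refine ⟨-ζ, Z.neg_mem h1, ?_⟩
    rw [h2]
    rfl

theorem start1 {G V A : Type*} [Group G] [AddCommGroup V] [DistribMulAction G V]
    [AddCommGroup A] {k : ℕ} (x : Fin k → G) (hx : Subgroup.closure (Set.range x) = ⊤)
    (β : V →+ V →+ A) {ζ : A}
    (hζ : ζ ∈ AddSubgroup.closure {a | ∃ w v : V, ∃ h ∈ commutator G, a = β w (h • v - v)}) :
    ∃ W : Set V, W.Finite ∧ ∃ R, ∀ κ, ζ ∈ BI β x W κ R 1 := by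
  induction hζ using AddSubgroup.closure_induction with
  | mem a ha =>
    obtain ⟨w, v, h, hh, rfl⟩ := ha
    obtain ⟨R, hR⟩ := exists_TT x hx hh
    refine ⟨{w, v}, by simp, R, fun κ => ?_⟩
    refine AddSubgroup.subset_closure ⟨cls κ 0, (w, h • v - v), ?_, rfl⟩
    refine ⟨by simp, [h], 0, 1, v, by simp, by simp, ?_, bx_zero _, rfl, ?_, ?_⟩
    · intro m hm
      rw [List.mem_singleton] at hm
      rw [hm]
      exact hR
    · rw [CC_zero]
      exact Subgroup.one_mem _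
    · rw [one_smul, ops_cons, ops_nil]
  | zero => exact ⟨∅, Set.finite_empty, 0, fun κ => AddSubgroup.zero_mem _⟩
  | add a b _ _ iha ihb =>
    obtain ⟨W, hW, R, h1⟩ := iha
    obtain ⟨W', hW', R', h2⟩ := ihb
    refine ⟨W ∪ W', hW.union hW', max R R', fun κ => ?_⟩
    exact AddSubgroup.add_mem _
      (BI_mono x β Set.subset_union_left (le_max_left _ _) le_rfl (h1 κ))
      (BI_mono x β Set.subset_union_right (le_max_right _ _) le_rfl (h2 κ))
  | neg a _ iha =>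
    obtain ⟨W, hW, R, h1⟩ := iha
    exact ⟨W, hW, R, fun κ => AddSubgroup.neg_mem _ (h1 κ)⟩

private theorem lam_set {G : Type*} [Group G] {k : ℕ} (x : Fin k → G)
    (hx : Subgroup.closure (Set.range x) = ⊤) {F : Set G} (hF : F.Finite) :
    ∃ κ lam : ℕ, 1 ≤ κ ∧ ∀ g ∈ F, ∃ ε, bx κ ε ∧ g ∈ CC x lam ε := by
  induction F, hF using Set.Finite.induction_on with
  | empty => exact ⟨1, 0, le_rfl, fun g hg => absurd hg (Set.notMem_empty g)⟩
  | @insert a s _ _ ih =>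
    obtain ⟨κ, lam, h1, h2⟩ := ih
    obtain ⟨R, δ, hR⟩ := exists_CC x hx a
    obtain ⟨D, hD⟩ := exists_bx δ
    refine ⟨max κ D, max lam R, h1.trans (le_max_left _ _), ?_⟩
    intro g hg
    rcases Set.mem_insert_iff.1 hg with rfl | hg
    · exact ⟨δ, bx_mono (le_max_right _ _) hD, CC_mono x (le_max_right _ _) hR⟩
    · obtain ⟨ε, h3, h4⟩ := h2 g hg
      exact ⟨ε, bx_mono (le_max_left _ _) h3, CC_mono x (le_max_left _ _) h4⟩

theorem exists_lam {G V : Type*} [Group G] [AddCommGroup V] [DistribMulAction G V]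
    {k : ℕ} (x : Fin k → G) (hx : Subgroup.closure (Set.range x) = ⊤)
    (E : V → V → List (G × G)) (S : V → List (G × G)) {W : Set V} (hW : W.Finite) :
    ∃ κ lam : ℕ, 1 ≤ κ ∧
      (∀ w ∈ W, ∀ w' ∈ W, ∀ p ∈ E w w', ∃ ε, bx κ ε ∧ p.2⁻¹ * p.1 ∈ CC x lam ε) ∧
      (∀ w ∈ W, ∀ p ∈ S w, ∃ ε, bx κ ε ∧ p.2⁻¹ * p.1 ∈ CC x lam ε) := by
  have hF : ((⋃ w ∈ W, ⋃ w' ∈ W, (fun p : G × G => p.2⁻¹ * p.1) '' {p | p ∈ E w w'}) ∪
      (⋃ w ∈ W, (fun p : G × G => p.2⁻¹ * p.1) '' {p | p ∈ S w})).Finite := by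
    apply Set.Finite.union
    · exact hW.biUnion fun w _ => hW.biUnion fun w' _ => (List.finite_toSet _).image _
    · exact hW.biUnion fun w _ => (List.finite_toSet _).image _
  obtain ⟨κ, lam, h1, h2⟩ := lam_set x hx hF
  refine ⟨κ, lam, h1, ?_, ?_⟩
  · intro w hw w' hw' p hp
    apply h2
    left
    simp only [Set.mem_iUnion]
    exact ⟨w, hw, w', hw', p, hp, rfl⟩
  · intro w hw p hp
    apply h2
    right
    simp only [Set.mem_iUnion]
    exact ⟨w, hw, p, hp, rfl⟩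

end Pool.Agent.Helper33.CW2
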