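import Pool.Agent.Helper33.CW2.Trav

/-!
# CW2-TB: conjugation, inverses and products of elements of bounded content

PLAN. `g ∈ CC x R δ` means `g = s * gp x δ` with `s = g * (gp x δ)⁻¹ ∈ TT x R`.
`conj_TT`: `g t g⁻¹ = s (gp δ t (gp δ)⁻¹) s⁻¹`; closure induction on `t ∈ TT x R`; for a generator
`t = tau x γ i`, `bx R γ`:
`gp δ * t * (gp δ)⁻¹ = [gp δ gp γ gp(δ+γ)⁻¹] [gp(δ+γ) x_i gp(δ+γ+e_i)⁻¹] [gp δ gp(γ+e_i) gp(δ+γ+e_i)⁻¹]⁻¹`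
with the factors in `TT x (D + R)` (`traverse`), `TT x (D + R)` (`step_mem`), `TT x (D + (R + 1))`
(`traverse` with `bx (R+1) (γ + Pi.single i 1)`, from `bx_add`, `bx_single`).
`inv_CC`: `θ = gp(-δ) gp(δ) = gp(-δ) gp(δ) (gp 0)⁻¹ ∈ TT x (D + D)` (`traverse`, `gp_zero`),
`(gp δ)⁻¹ = θ⁻¹ gp(-δ)`, `g⁻¹ (gp(-δ))⁻¹ = (gp δ)⁻¹ s⁻¹ (gp(-δ))⁻¹
 = θ⁻¹ (gp(-δ) s⁻¹ (gp(-δ))⁻¹)` and the bracket is in `TT x (R + D + 1)` by `conj_TT` applied to the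
element `gp x (-δ) ∈ CC x R (-δ)`.
`mul_CC`: `g g' (gp(δ+δ'))⁻¹ = s (gp δ s' (gp δ)⁻¹) (gp δ gp δ' (gp(δ+δ'))⁻¹)`.
-/

namespace Pool.Agent.Helper33.CW2

variable {G : Type*} [Group G] {k : ℕ} (x : Fin k → G)

private theorem conj_gp {R D : ℕ} {δ : Fin k → ℤ} (hδ : bx D δ) {t : G} (ht : t ∈ TT x R) :
    gp x δ * t * (gp x δ)⁻¹ ∈ TT x (R + D + 1) := by
  unfold TT at ht
  refine Subgroup.closure_induction (p := fun t _ => gp x δ * t * (gp x δ)⁻¹ ∈ TT x (R + D + 1))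
    ?_ ?_ ?_ ?_ ht
  · rintro t ⟨γ, i, hγ, rfl⟩
    have h1 : gp x δ * gp x γ * (gp x (δ + γ))⁻¹ ∈ TT x (R + D + 1) :=
      TT_mono x (by omega) (traverse x hδ hγ)
    have h2 : gp x (δ + γ) * x i * (gp x (δ + γ + Pi.single i 1))⁻¹ ∈ TT x (R + D + 1) :=
      TT_mono x (by omega) (step_mem x (bx_add hδ hγ) i)
    have h3 : gp x δ * gp x (γ + Pi.single i 1) * (gp x (δ + (γ + Pi.single i 1)))⁻¹ ∈
        TT x (R + D + 1) :=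
      TT_mono x (by omega) (traverse x hδ (bx_add hγ (bx_single i)))
    have h4 := Subgroup.mul_mem _ (Subgroup.mul_mem _ h1 h2) (Subgroup.inv_mem _ h3)
    have e : gp x δ * tau x γ i * (gp x δ)⁻¹ =
        gp x δ * gp x γ * (gp x (δ + γ))⁻¹ *
          (gp x (δ + γ) * x i * (gp x (δ + γ + Pi.single i 1))⁻¹) *
          (gp x δ * gp x (γ + Pi.single i 1) * (gp x (δ + (γ + Pi.single i 1)))⁻¹)⁻¹ := by
      rw [← add_assoc]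
      unfold tau
      group
    rw [e]
    exact h4
  · rw [mul_one, mul_inv_cancel]
    exact Subgroup.one_mem _
  · intro a b _ _ ha hb
    have e : gp x δ * (a * b) * (gp x δ)⁻¹ =
        (gp x δ * a * (gp x δ)⁻¹) * (gp x δ * b * (gp x δ)⁻¹) := by group
    rw [e]
    exact Subgroup.mul_mem _ ha hb
  · intro a _ ha
    have e : gp x δ * a⁻¹ * (gp x δ)⁻¹ = (gp x δ * a * (gp x δ)⁻¹)⁻¹ := by group
    rw [e]
    exact Subgroup.inv_mem _ ha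

theorem conj_TT {R D : ℕ} {δ : Fin k → ℤ} (hδ : bx D δ) {g t : G} (hg : g ∈ CC x R δ)
    (ht : t ∈ TT x R) : g * t * g⁻¹ ∈ TT x (R + D + 1) := by
  have hs : g * (gp x δ)⁻¹ ∈ TT x (R + D + 1) := TT_mono x (by omega) hg
  have h1 := conj_gp x hδ ht
  have e : g * t * g⁻¹ = (g * (gp x δ)⁻¹) * (gp x δ * t * (gp x δ)⁻¹) * (g * (gp x δ)⁻¹)⁻¹ := by
    group
  rw [e]
  exact Subgroup.mul_mem _ (Subgroup.mul_mem _ hs h1) (Subgroup.inv_mem _ hs)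

theorem inv_CC {R D : ℕ} {δ : Fin k → ℤ} (hδ : bx D δ) {g : G} (hg : g ∈ CC x R δ) :
    g⁻¹ ∈ CC x (R + 2 * D + 1) (-δ) := by
  have hs : g * (gp x δ)⁻¹ ∈ TT x R := hg
  have hθ : gp x (-δ) * gp x δ ∈ TT x (R + 2 * D + 1) := by
    have h := traverse x (bx_neg hδ) hδ
    rw [neg_add_cancel, gp_zero, inv_one, mul_one] at h
    exact TT_mono x (by omega) h
  have h1 : gp x (-δ) * (g * (gp x δ)⁻¹)⁻¹ * (gp x (-δ))⁻¹ ∈ TT x (R + 2 * D + 1) :=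
    TT_mono x (by omega) (conj_gp x (bx_neg hδ) (Subgroup.inv_mem _ hs))
  have e : g⁻¹ * (gp x (-δ))⁻¹ = (gp x (-δ) * gp x δ)⁻¹ *
      (gp x (-δ) * (g * (gp x δ)⁻¹)⁻¹ * (gp x (-δ))⁻¹) := by
    group
  change g⁻¹ * (gp x (-δ))⁻¹ ∈ TT x (R + 2 * D + 1)
  rw [e]
  exact Subgroup.mul_mem _ (Subgroup.inv_mem _ hθ) h1

theorem mul_CC {R D : ℕ} {δ δ' : Fin k → ℤ} (hδ : bx D δ) (hδ' : bx D δ') {g g' : G}
    (hg : g ∈ CC x R δ) (hg' : g' ∈ CC x R δ') : g * g' ∈ CC x (R + 2 * D + 1) (δ + δ') := by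
  have h1 : g * (gp x δ)⁻¹ ∈ TT x (R + 2 * D + 1) := TT_mono x (by omega) hg
  have h2 : gp x δ * (g' * (gp x δ')⁻¹) * (gp x δ)⁻¹ ∈ TT x (R + 2 * D + 1) :=
    TT_mono x (by omega) (conj_gp x hδ hg')
  have h3 : gp x δ * gp x δ' * (gp x (δ + δ'))⁻¹ ∈ TT x (R + 2 * D + 1) :=
    TT_mono x (by omega) (traverse x hδ hδ')
  have e : g * g' * (gp x (δ + δ'))⁻¹ = (g * (gp x δ)⁻¹) *
      (gp x δ * (g' * (gp x δ')⁻¹) * (gp x δ)⁻¹) *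
      (gp x δ * gp x δ' * (gp x (δ + δ'))⁻¹) := by
    group
  change g * g' * (gp x (δ + δ'))⁻¹ ∈ TT x (R + 2 * D + 1)
  rw [e]
  exact Subgroup.mul_mem _ (Subgroup.mul_mem _ h1 h2) h3

end Pool.Agent.Helper33.CW2
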