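import Pool.Agent.Helper33.CW2.Defs

/-!
# CW2: boxes, the groups `TT x R`
-/

namespace Pool.Agent.Helper33.CW2

variable {G : Type*} [Group G] {k : ℕ} (x : Fin k → G)

lemma bx_mono {R R' : ℕ} (h : R ≤ R') {γ : Fin k → ℤ} (hγ : bx R γ) : bx R' γ :=
  fun i => (hγ i).trans (by exact_mod_cast h)

lemma bx_zero (R : ℕ) : bx R (0 : Fin k → ℤ) := fun i => by simp

lemma bx_add {R R' : ℕ} {γ δ : Fin k → ℤ} (hγ : bx R γ) (hδ : bx R' δ) : bx (R + R') (γ + δ) := by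
  intro i
  have h1 := hγ i
  have h2 := hδ i
  have h3 := abs_add_le (γ i) (δ i)
  rw [Pi.add_apply]
  push_cast
  linarith

lemma bx_neg {R : ℕ} {γ : Fin k → ℤ} (hγ : bx R γ) : bx R (-γ) := by
  intro i
  rw [Pi.neg_apply, abs_neg]
  exact hγ i

lemma bx_single (i : Fin k) : bx 1 (Pi.single i 1 : Fin k → ℤ) := by
  intro j
  by_cases h : j = i
  · subst h; simp
  · simp [h]

lemma TT_mono {R R' : ℕ} (h : R ≤ R') : TT x R ≤ TT x R' := by
  refine Subgroup.closure_mono ?_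
  rintro t ⟨γ, i, hγ, ht⟩
  exact ⟨γ, i, bx_mono h hγ, ht⟩

lemma CC_mono {R R' : ℕ} (h : R ≤ R') {δ : Fin k → ℤ} {g : G} (hg : g ∈ CC x R δ) :
    g ∈ CC x R' δ := TT_mono x h hg

lemma gp_zero : gp x 0 = 1 := by
  unfold gp
  apply List.prod_eq_one
  intro y hy
  rw [List.mem_ofFn] at hy
  obtain ⟨i, rfl⟩ := hy
  simp

lemma CC_zero {R : ℕ} {g : G} : g ∈ CC x R 0 ↔ g ∈ TT x R := by
  change g * (gp x 0)⁻¹ ∈ TT x R ↔ _
  rw [gp_zero, inv_one, mul_one]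

lemma step_mem {R : ℕ} {γ : Fin k → ℤ} (hγ : bx R γ) (i : Fin k) :
    gp x γ * x i * (gp x (γ + Pi.single i 1))⁻¹ ∈ TT x R :=
  Subgroup.subset_closure ⟨γ, i, hγ, rfl⟩

lemma mem_CC_gen (i : Fin k) : x i ∈ CC x 0 (Pi.single i 1) := by
  have h := step_mem x (bx_zero 0) i
  rw [gp_zero, one_mul, zero_add] at h
  exact h

end Pool.Agent.Helper33.CW2
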