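import Pool.Agent.Helper33.CW2.TB

/-!
# CW2-TC: existence of contents

PLAN. `exists_CC`: closure induction (`Subgroup.closure_induction`) for
`g ∈ Subgroup.closure (Set.range x) = ⊤`: generators by `mem_CC_gen`, `1 ∈ CC x 0 0` (`CC_zero`),
products by `mul_CC` (enlarge both radii by `CC_mono` to the maximum; `D` = a common bound of `δ, δ'`:
every `δ` satisfies `bx D δ` for `D = ∑ i, (δ i).natAbs`, or a sup), inverses by `inv_CC`.
`exists_TT`: the set `{h | ∃ R, h ∈ TT x R}` is a subgroup `U` (closed under products: enlarge the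
radius by `TT_mono`); it contains all commutators `⁅g, h⁆`: by `exists_CC`, `mul_CC`, `inv_CC` the
element `g * h * g⁻¹ * h⁻¹` is in `CC x R ((δ + δ') + (-δ) + (-δ')) = CC x R 0` for some `R`, i.e. in
`TT x R` by `CC_zero`. `commutator G` is the closure of the commutators (`commutator_eq_closure`, or
`commutator_def` and `Subgroup.commutator_le`), hence `commutator G ≤ U`.
`TT_le`: it suffices (`Subgroup.closure_le`) that `tau x γ i ∈ commutator G`, i.e. that its image in
`Abelianization G` is `1` (`Abelianization.ker_of` : `MonoidHom.ker Abelianization.of = commutator G`).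
The image of `gp x γ` in a commutative group is `∏ i, f (x i) ^ γ i` (`List.prod_ofFn`), and
`∏ f (x j) ^ (γ j + Pi.single i 1 j) = (∏ f (x j) ^ γ j) * f (x i)` (`zpow_add`,
`Finset.prod_mul_distrib`, `Finset.prod_eq_single` or `Fintype.prod_eq_single`).
`TT_fg`: the set of generators of `TT x R` is the image of `(Fin k → Fin (2 * R + 1)) × Fin k` under
`(c, i) ↦ tau x (fun j => (c j : ℤ) - R) i`, a type with `k * (2 * R + 1) ^ k` elements
(`Fintype.equivFinOfCardEq` or `Fintype.equivFin` with `finCongr`).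
-/

open scoped commutatorElement

namespace Pool.Agent.Helper33.CW2

variable {G : Type*} [Group G] {k : ℕ} (x : Fin k → G)

private lemma tc_exists_bx (δ : Fin k → ℤ) : ∃ D, bx D δ := by
  refine ⟨∑ i, (δ i).natAbs, fun i => ?_⟩
  rw [Int.abs_eq_natAbs]
  exact_mod_cast Finset.single_le_sum (f := fun i => (δ i).natAbs) (fun _ _ => Nat.zero_le _)
    (Finset.mem_univ i)

private lemma tc_mul {g g' : G} (h : ∃ R δ, g ∈ CC x R δ) (h' : ∃ R δ, g' ∈ CC x R δ) :
    ∃ R δ, g * g' ∈ CC x R δ := by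
  obtain ⟨R, δ, h⟩ := h
  obtain ⟨R', δ', h'⟩ := h'
  obtain ⟨D, hD⟩ := tc_exists_bx δ
  obtain ⟨D', hD'⟩ := tc_exists_bx δ'
  exact ⟨_, _, mul_CC x (bx_mono (le_max_left D D') hD) (bx_mono (le_max_right D D') hD')
    (CC_mono x (le_max_left R R') h) (CC_mono x (le_max_right R R') h')⟩

theorem exists_CC (hx : Subgroup.closure (Set.range x) = ⊤) (g : G) :
    ∃ R δ, g ∈ CC x R δ := by
  have hg : g ∈ Subgroup.closure (Set.range x) := by rw [hx]; exact Subgroup.mem_top g
  refine Subgroup.closure_induction (p := fun g _ => ∃ R δ, g ∈ CC x R δ) ?_ ?_ ?_ ?_ hg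
  · rintro _ ⟨i, rfl⟩
    exact ⟨0, _, mem_CC_gen x i⟩
  · exact ⟨0, 0, (CC_zero x).mpr (one_mem _)⟩
  · intro a b _ _ ha hb
    exact tc_mul x ha hb
  · rintro a _ ⟨R, δ, ha⟩
    obtain ⟨D, hD⟩ := tc_exists_bx δ
    exact ⟨_, _, inv_CC x hD ha⟩

private lemma tc_mem_commutator (hx : Subgroup.closure (Set.range x) = ⊤) (g h : G) :
    ∃ R, ⁅g, h⁆ ∈ TT x R := by
  obtain ⟨R₁, δ, hg⟩ := exists_CC x hx g
  obtain ⟨R₂, ε, hh⟩ := exists_CC x hx h
  obtain ⟨D₁, hD₁⟩ := tc_exists_bx δ
  obtain ⟨D₂, hD₂⟩ := tc_exists_bx ε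
  have hgi := inv_CC x hD₁ hg
  have hhi := inv_CC x hD₂ hh
  -- product of two elements with explicit displacement
  have hm : ∀ {a b : G} {R R' : ℕ} {α α' : Fin k → ℤ}, a ∈ CC x R α → b ∈ CC x R' α' →
      ∃ R'', a * b ∈ CC x R'' (α + α') := by
    intro a b R R' α α' ha hb
    obtain ⟨D, hD⟩ := tc_exists_bx α
    obtain ⟨D', hD'⟩ := tc_exists_bx α'
    exact ⟨_, mul_CC x (bx_mono (le_max_left D D') hD) (bx_mono (le_max_right D D') hD')
      (CC_mono x (le_max_left R R') ha) (CC_mono x (le_max_right R R') hb)⟩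
  obtain ⟨R₃, h3⟩ := hm hg hh
  obtain ⟨R₄, h4⟩ := hm h3 hgi
  obtain ⟨R₅, h5⟩ := hm h4 hhi
  refine ⟨R₅, ?_⟩
  have h0 : δ + ε + -δ + -ε = 0 := by abel
  rw [h0] at h5
  rw [commutatorElement_def]
  exact (CC_zero x).mp h5

theorem exists_TT (hx : Subgroup.closure (Set.range x) = ⊤) {g : G} (hg : g ∈ commutator G) :
    ∃ R, g ∈ TT x R := by
  have hdir : Directed (· ≤ ·) (fun R => TT x R) :=
    (fun R R' => ⟨max R R', TT_mono x (le_max_left _ _), TT_mono x (le_max_right _ _)⟩)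
  have hle : commutator G ≤ ⨆ R, TT x R := by
    rw [commutator_def, Subgroup.commutator_le]
    intro a _ b _
    rw [Subgroup.mem_iSup_of_directed hdir]
    exact tc_mem_commutator x hx a b
  exact (Subgroup.mem_iSup_of_directed hdir).mp (hle hg)

theorem TT_le (R : ℕ) : TT x R ≤ commutator G := by
  have hgp : ∀ γ : Fin k → ℤ, Abelianization.of (gp x γ)
      = ∏ i, Abelianization.of (x i) ^ γ i := by
    intro γ
    unfold gp
    rw [map_list_prod, List.map_ofFn, List.prod_ofFn]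
    refine Finset.prod_congr rfl fun i _ => ?_
    rw [Function.comp_apply, map_zpow]
  unfold TT
  rw [Subgroup.closure_le]
  rintro t ⟨γ, i, _, rfl⟩
  rw [SetLike.mem_coe, ← Abelianization.ker_of, MonoidHom.mem_ker]
  unfold tau
  rw [map_mul, map_mul, map_inv, hgp, hgp]
  have h1 : ∏ j, Abelianization.of (x j) ^ ((γ + Pi.single i 1 : Fin k → ℤ) j)
      = (∏ j, Abelianization.of (x j) ^ γ j) * Abelianization.of (x i) := by
    have h2 : ∀ j, Abelianization.of (x j) ^ ((γ + Pi.single i 1 : Fin k → ℤ) j)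
        = Abelianization.of (x j) ^ γ j *
          Abelianization.of (x j) ^ ((Pi.single i 1 : Fin k → ℤ) j) := by
      intro j
      rw [Pi.add_apply, zpow_add]
    rw [Finset.prod_congr rfl (fun j _ => h2 j), Finset.prod_mul_distrib]
    congr 1
    rw [Fintype.prod_eq_single i]
    · rw [Pi.single_eq_same, zpow_one]
    · intro j hj
      rw [Pi.single_eq_of_ne hj, zpow_zero]
  rw [h1]
  exact mul_inv_cancel _

theorem TT_fg (R : ℕ) :
    ∃ t : Fin (k * (2 * R + 1) ^ k) → G, TT x R = Subgroup.closure (Set.range t) := by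
  let F : (Fin k → Fin (2 * R + 1)) × Fin k → G :=
    fun c => tau x (fun j => ((c.1 j : ℕ) : ℤ) - R) c.2
  have hcard : Fintype.card (Fin (k * (2 * R + 1) ^ k))
      = Fintype.card ((Fin k → Fin (2 * R + 1)) × Fin k) := by
    simp [mul_comm]
  let e := Fintype.equivOfCardEq hcard
  refine ⟨F ∘ e, ?_⟩
  rw [e.surjective.range_comp]
  unfold TT
  congr 1
  ext t
  constructor
  · rintro ⟨γ, i, hγ, rfl⟩
    have hlt : ∀ j, (γ j + R).toNat < 2 * R + 1 := by
      intro j
      have := abs_le.mp (hγ j)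
      omega
    refine ⟨(fun j => ⟨(γ j + R).toNat, hlt j⟩, i), ?_⟩
    change tau x (fun j => (((γ j + R).toNat : ℕ) : ℤ) - R) i = tau x γ i
    congr 1
    funext j
    have := abs_le.mp (hγ j)
    omega
  · rintro ⟨c, rfl⟩
    refine ⟨_, c.2, ?_, rfl⟩
    intro j
    change |((c.1 j : ℕ) : ℤ) - R| ≤ (R : ℤ)
    rw [abs_le]
    have := (c.1 j).2
    constructor <;> omega

lemma exists_bx (δ : Fin k → ℤ) : ∃ D, bx D δ := tc_exists_bx δ

end Pool.Agent.Helper33.CW2
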