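import Pool.Agent.Helper33.CW2.TBase

/-!
# CW2-Trav: `x^α x^ε` against `x^(α+ε)`

PLAN. `gp x γ = x₀^γ₀ ⋯ x_{k-1}^γ_{k-1}`.
(1) `run_nat`: for `n : ℕ`, `bx R α`, `bx R (α + n • Pi.single i 1)` (i.e. `α + Pi.single i n`):
`gp x α * x i ^ n * (gp x (α + Pi.single i (n : ℤ)))⁻¹ ∈ TT x R`. Induction on `n`:
`gp α x^(n+1) gp(α+(n+1)e)⁻¹ = [gp α x^n gp(α+ne)⁻¹] [gp(α+ne) x gp(α+(n+1)e)⁻¹]`, the second factor is
in `TT x R` by `step_mem`, since `α + n e` lies in the box of radius `R` (its `i`-th coordinate is
between `α i` and `α i + n + 1`).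
(2) `run`: the same for `n : ℤ`; for negative exponents take the inverse of (1) starting from the
other end: `gp α x^(-n) gp(α-ne)⁻¹ = (gp(α-ne) x^n gp(α)⁻¹)⁻¹`.
(3) `gp_split`: if `δ j = 0` for all `j ≥ i` then `gp x (δ + Pi.single i n) = gp x δ * x i ^ n`
(split the product of `List.ofFn` at position `i`; or induction on `k` with `List.ofFn_succ`: for
`i = 0` all `δ j = 0` and `gp x δ = 1`; for `i = i'.succ` peel off the first factor).
(4) For `m ≤ k` let `εm j = if j.1 < m then ε j else 0`. By induction on `m`: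
`gp x α * gp x εm * (gp x (α + εm))⁻¹ ∈ TT x (A + B)`; the step multiplies by
`gp(α + εm) * x m ^ (ε m) * (gp (α + εm + Pi.single m (ε m)))⁻¹`, which is in `TT x (A + B)` by (2).
For `m = k` this is the claim.
-/

namespace Pool.Agent.Helper33.CW2

variable {G : Type*} [Group G] {k : ℕ} (x : Fin k → G)

private lemma run_nat {R : ℕ} (i : Fin k) (n : ℕ) : ∀ α : Fin k → ℤ, bx R α →
    bx R (α + Pi.single i (n : ℤ)) →
    gp x α * x i ^ n * (gp x (α + Pi.single i (n : ℤ)))⁻¹ ∈ TT x R := by
  induction n with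
  | zero =>
    intro α _ _
    simp only [pow_zero, mul_one, Nat.cast_zero, Pi.single_zero, add_zero, mul_inv_cancel]
    exact Subgroup.one_mem _
  | succ n ih =>
    intro α hα hα'
    have hmid : bx R (α + Pi.single i (n : ℤ)) := by
      intro j
      have h1 := hα j
      have h2 := hα' j
      rw [Pi.add_apply] at h2 ⊢
      by_cases hj : j = i
      · subst hj
        rw [Pi.single_eq_same] at h2 ⊢
        rw [abs_le] at h1 h2 ⊢
        push_cast at h2
        constructor <;> linarith [h1.1, h1.2, h2.1, h2.2]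
      · rw [Pi.single_eq_of_ne hj] at h2 ⊢
        simpa using h1
    have h1 := ih α hα hmid
    have h2 := step_mem x hmid i
    have h3 : α + Pi.single i (n : ℤ) + Pi.single i 1 = α + Pi.single i ((n + 1 : ℕ) : ℤ) := by
      rw [add_assoc, ← Pi.single_add]
      push_cast
      rfl
    rw [h3] at h2
    have h4 := Subgroup.mul_mem _ h1 h2
    have h5 : gp x α * x i ^ n * (gp x (α + Pi.single i (n : ℤ)))⁻¹ *
        (gp x (α + Pi.single i (n : ℤ)) * x i * (gp x (α + Pi.single i ((n + 1 : ℕ) : ℤ)))⁻¹) =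
        gp x α * x i ^ (n + 1) * (gp x (α + Pi.single i ((n + 1 : ℕ) : ℤ)))⁻¹ := by
      rw [pow_succ]
      group
    rw [h5] at h4
    exact h4

private lemma run {R : ℕ} (i : Fin k) (n : ℤ) (α : Fin k → ℤ) (hα : bx R α)
    (hα' : bx R (α + Pi.single i n)) :
    gp x α * x i ^ n * (gp x (α + Pi.single i n))⁻¹ ∈ TT x R := by
  obtain ⟨m, rfl | rfl⟩ := n.eq_nat_or_neg
  · rw [zpow_natCast]
    exact run_nat x i m α hα hα'
  · have h0 : α + Pi.single i (-(m : ℤ)) + Pi.single i (m : ℤ) = α := by
      rw [add_assoc, ← Pi.single_add]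
      simp
    have h1 := run_nat x i m (α + Pi.single i (-(m : ℤ))) hα' (by rw [h0]; exact hα)
    rw [h0] at h1
    have h2 := Subgroup.inv_mem _ h1
    have h3 : (gp x (α + Pi.single i (-(m : ℤ))) * x i ^ m * (gp x α)⁻¹)⁻¹ =
        gp x α * x i ^ (-(m : ℤ)) * (gp x (α + Pi.single i (-(m : ℤ))))⁻¹ := by
      rw [zpow_neg, zpow_natCast]
      group
    rw [h3] at h2
    exact h2

private lemma gp_succ {k : ℕ} (x : Fin (k + 1) → G) (γ : Fin (k + 1) → ℤ) :
    gp x γ = x 0 ^ γ 0 * gp (fun i => x i.succ) (fun i => γ i.succ) := by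
  unfold gp
  rw [List.ofFn_succ, List.prod_cons]

private lemma gp_split : ∀ {k : ℕ} (x : Fin k → G) (i : Fin k) (n : ℤ) (δ : Fin k → ℤ)
    (_ : ∀ j, i ≤ j → δ j = 0), gp x (δ + Pi.single i n) = gp x δ * x i ^ n := by
  intro k
  induction k with
  | zero => intro x i; exact i.elim0
  | succ k ih =>
    intro x i n δ hδ
    refine Fin.cases (motive := fun i => (∀ j, i ≤ j → δ j = 0) →
      gp x (δ + Pi.single i n) = gp x δ * x i ^ n) ?_ ?_ i hδ
    · intro h
      have h0 : δ = 0 := by
        funext j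
        exact h j (Fin.zero_le j)
      subst h0
      rw [gp_zero, one_mul, zero_add, gp_succ]
      have h1 : (fun i : Fin k => (Pi.single (0 : Fin (k + 1)) n : Fin (k + 1) → ℤ) i.succ) = 0 := by
        funext j
        rw [Pi.single_eq_of_ne (Fin.succ_ne_zero j)]
        rfl
      rw [h1, gp_zero, mul_one, Pi.single_eq_same]
    · intro i' h
      rw [gp_succ, gp_succ x δ]
      have h1 : (fun j : Fin k => (δ + (Pi.single i'.succ n : Fin (k + 1) → ℤ)) j.succ) =
          (fun j : Fin k => δ j.succ) + Pi.single i' n := by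
        funext j
        simp only [Pi.add_apply]
        by_cases hj : j = i'
        · subst hj
          rw [Pi.single_eq_same, Pi.single_eq_same]
        · rw [Pi.single_eq_of_ne hj, Pi.single_eq_of_ne (fun h => hj (Fin.succ_injective _ h))]
      have h2 : (δ + (Pi.single i'.succ n : Fin (k + 1) → ℤ)) 0 = δ 0 := by
        rw [Pi.add_apply, Pi.single_eq_of_ne (Fin.succ_ne_zero i').symm, add_zero]
      rw [h1, h2, ih (fun i => x i.succ) i' n (fun j => δ j.succ)
        (fun j hj => h j.succ (Fin.succ_le_succ_iff.2 hj)), mul_assoc]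

theorem traverse {A B : ℕ} {α ε : Fin k → ℤ} (hα : bx A α) (hε : bx B ε) :
    gp x α * gp x ε * (gp x (α + ε))⁻¹ ∈ TT x (A + B) := by
  let em : ℕ → Fin k → ℤ := fun m j => if j.1 < m then ε j else 0
  have hem : ∀ m, bx B (em m) := by
    intro m j
    by_cases h : j.1 < m
    · simp only [em, h, if_true]
      exact hε j
    · simp [em, h]
  have key : ∀ m, m ≤ k → gp x α * gp x (em m) * (gp x (α + em m))⁻¹ ∈ TT x (A + B) := by
    intro m
    induction m with
    | zero =>
      intro _
      have h0 : em 0 = 0 := by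
        funext j
        simp [em]
      rw [h0, gp_zero, mul_one, add_zero, mul_inv_cancel]
      exact Subgroup.one_mem _
    | succ m ih =>
      intro hm
      have h1 := ih (by omega)
      let i : Fin k := ⟨m, hm⟩
      have h2 : em (m + 1) = em m + Pi.single i (ε i) := by
        funext j
        rw [Pi.add_apply]
        by_cases hj : j = i
        · subst hj
          rw [Pi.single_eq_same]
          simp [em, i]
        · rw [Pi.single_eq_of_ne hj, add_zero]
          have h3 : j.1 ≠ m := fun h => hj (Fin.ext h)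
          by_cases h4 : j.1 < m
          · simp [em, h4, Nat.lt_succ_of_lt h4]
          · have h5 : ¬ j.1 < m + 1 := by omega
            simp [em, h4, h5]
      have h3 : gp x (em (m + 1)) = gp x (em m) * x i ^ (ε i) := by
        rw [h2]
        refine gp_split x i (ε i) (em m) ?_
        intro j hj
        have h4 : ¬ j.1 < m := by
          have h5 : m ≤ j.1 := hj
          omega
        simp [em, h4]
      have h4 := run x (R := A + B) i (ε i) (α + em m) (bx_add hα (hem m)) (by
        rw [add_assoc, ← h2]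
        exact bx_add hα (hem (m + 1)))
      rw [add_assoc, ← h2] at h4
      have h5 := Subgroup.mul_mem _ h1 h4
      have h6 : gp x α * gp x (em m) * (gp x (α + em m))⁻¹ *
          (gp x (α + em m) * x i ^ ε i * (gp x (α + em (m + 1)))⁻¹) =
          gp x α * gp x (em (m + 1)) * (gp x (α + em (m + 1)))⁻¹ := by
        rw [h3]
        group
      rw [h6] at h5
      exact h5
  have hk : em k = ε := by
    funext j
    simp [em, j.2]
  have h := key k le_rfl
  rw [hk] at h
  exact h

end Pool.Agent.Helper33.CW2
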